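import Mathlib.Algebra.Homology.HomotopyCategory.Triangulated
import Mathlib.CategoryTheory.Idempotents.Basic
import Mathlib.CategoryTheory.Limits.Shapes.Products
import Mathlib.Algebra.BigOperators.Intervals

/-!
Idempotents split in homotopy categories of complexes over additive categories with
countable coproducts.
-/

open CategoryTheory Limits Pretriangulated Preadditive

namespace Pool.Agent.V1166.Sph

universe v w

section splitting

variable {T : Type w} [Category.{v} T] [Preadditive T]
  [HasZeroObject T] [HasShift T ℤ] [∀ i : ℤ, (shiftFunctor T i).Additive] [Pretriangulated T]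

/-- An idempotent splits as soon as the object has a countable copower. -/
theorem split_of_copower {X S : T} (inj : ℕ → (X ⟶ S))
    (huniq : ∀ {Z : T} (f g : S ⟶ Z), (∀ i, inj i ≫ f = inj i ≫ g) → f = g)
    (hex : ∀ {Z : T} (f : ℕ → (X ⟶ Z)), ∃ g : S ⟶ Z, ∀ i, inj i ≫ g = f i)
    (e : X ⟶ X) (he : e ≫ e = e) :
    ∃ (Y : T) (a : Y ⟶ X) (b : X ⟶ Y), a ≫ b = 𝟙 Y ∧ b ≫ a = e := by
  obtain ⟨φ, hφ⟩ := hex (fun i => inj i - e ≫ inj (i + 1))
  obtain ⟨ρ, hρ⟩ := hex (fun i => inj i - e ≫ inj i - ∑ j ∈ Finset.range i, e ≫ inj j)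
  obtain ⟨N, hN⟩ := hex (fun _ => e)
  have hφρ : φ ≫ ρ = 𝟙 S := by
    apply huniq
    intro i
    rw [reassoc_of% (hφ i), sub_comp, hρ, Category.assoc, hρ, Finset.sum_range_succ]
    simp only [comp_sub, comp_add, comp_sum, reassoc_of% he, Category.comp_id]
    abel
  obtain ⟨Y, p, δ, hT⟩ := distinguished_cocone_triangle φ
  have hδ : δ = 0 := by
    have h1 : δ ≫ φ⟦(1 : ℤ)⟧' = 0 := comp_distTriang_mor_zero₃₁ _ hT
    have h2 : δ ≫ (φ ≫ ρ)⟦(1 : ℤ)⟧' = 0 := by
      rw [Functor.map_comp, reassoc_of% h1, zero_comp]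
    rwa [hφρ, CategoryTheory.Functor.map_id, Category.comp_id] at h2
  have hp : Epi p := (Triangle.mor₃_eq_zero_iff_epi₂ _ hT).1 hδ
  have hφp : φ ≫ p = 0 := comp_distTriang_mor_zero₁₂ _ hT
  have hπ : 𝟙 S - ρ ≫ φ = N ≫ inj 0 := by
    apply huniq
    intro i
    have h1 : ∀ m : ℕ, ∑ j ∈ Finset.range m, (e ≫ inj j - e ≫ inj (j + 1)) =
        e ≫ inj 0 - e ≫ inj m := fun m => Finset.sum_range_sub' (fun j => e ≫ inj j) m
    rw [comp_sub, Category.comp_id, reassoc_of% (hρ i), reassoc_of% (hN i), sub_comp, sub_comp,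
      sum_comp, hφ, Category.assoc, hφ]
    simp only [Category.assoc, hφ, comp_sub, reassoc_of% he, h1]
    abel
  obtain ⟨s, hs⟩ : ∃ s : Y ⟶ S, 𝟙 S - ρ ≫ φ = p ≫ s :=
    Triangle.yoneda_exact₂ _ hT (𝟙 S - ρ ≫ φ) (by
    change φ ≫ (𝟙 S - ρ ≫ φ) = 0
    rw [comp_sub, reassoc_of% hφρ, Category.comp_id, sub_self])
  have hsp : s ≫ p = 𝟙 Y := by
    rw [← cancel_epi p, ← Category.assoc, ← hs, sub_comp, Category.assoc, hφp]
    simp
  have hps : p ≫ s = N ≫ inj 0 := by rw [← hs, hπ]
  refine ⟨Y, s ≫ N, inj 0 ≫ p, ?_, ?_⟩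
  · calc (s ≫ N) ≫ inj 0 ≫ p = s ≫ (N ≫ inj 0) ≫ p := by simp
      _ = (s ≫ p) ≫ (s ≫ p) := by rw [← hps]; simp
      _ = 𝟙 Y := by rw [hsp]; simp
  · calc (inj 0 ≫ p) ≫ s ≫ N = inj 0 ≫ (p ≫ s) ≫ N := by simp
      _ = (inj 0 ≫ N) ≫ (inj 0 ≫ N) := by rw [hps]; simp
      _ = e := by rw [hN, he]

end splitting

section homotopy

variable {C : Type w} [Category.{v} C] [Preadditive C] [HasCoproductsOfShape ℕ C]

/-- The coproduct of countably many copies of a complex. -/
noncomputable def copow (K : CochainComplex C ℤ) : CochainComplex C ℤ where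
  X p := ∐ fun (_ : ℕ) => K.X p
  d p q := Limits.Sigma.map fun _ => K.d p q
  shape p q h := by
    apply Limits.Sigma.hom_ext
    intro i
    simp [K.shape p q h]
  d_comp_d' p q r _ _ := by
    apply Limits.Sigma.hom_ext
    intro i
    simp

/-- The inclusions. -/
noncomputable def copowι (K : CochainComplex C ℤ) (i : ℕ) : K ⟶ copow K where
  f p := Limits.Sigma.ι (fun (_ : ℕ) => K.X p) i
  comm' p q _ := by simp [copow]

/-- The morphism induced by a family. -/
noncomputable def copowDesc {K L : CochainComplex C ℤ} (f : ℕ → (K ⟶ L)) : copow K ⟶ L where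
  f p := Limits.Sigma.desc fun i => (f i).f p
  comm' p q _ := by
    apply Limits.Sigma.hom_ext
    intro i
    simp [copow]

lemma copowι_desc {K L : CochainComplex C ℤ} (f : ℕ → (K ⟶ L)) (i : ℕ) :
    copowι K i ≫ copowDesc f = f i := by
  ext p
  exact Limits.Sigma.ι_desc _ _

/-- A family of null homotopies gives a null homotopy. -/
noncomputable def copowHomotopy {K L : CochainComplex C ℤ} (f : copow K ⟶ L)
    (h : ∀ i, Homotopy (copowι K i ≫ f) 0) : Homotopy f 0 where
  hom p q := Limits.Sigma.desc fun i => (h i).hom p q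
  zero p q hpq := by
    apply Limits.Sigma.hom_ext
    intro i
    refine (Limits.Sigma.ι_desc _ _).trans ?_
    rw [(h i).zero p q hpq]
    exact comp_zero.symm
  comm p := by
    apply Limits.Sigma.hom_ext
    intro i
    have h1 := (h i).comm p
    rw [dNext_eq _ (show (ComplexShape.up ℤ).Rel p (p + 1) by simp),
      prevD_eq _ (show (ComplexShape.up ℤ).Rel (p - 1) p by simp)] at h1 ⊢
    have e1 : Limits.Sigma.ι (fun (_ : ℕ) => K.X p) i ≫
        ((Limits.Sigma.map fun (_ : ℕ) => K.d p (p + 1)) ≫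
          Limits.Sigma.desc (fun j => (h j).hom (p + 1) p)) =
        K.d p (p + 1) ≫ (h i).hom (p + 1) p := by simp
    have e2 : Limits.Sigma.ι (fun (_ : ℕ) => K.X p) i ≫
        ((Limits.Sigma.desc fun j => (h j).hom p (p - 1)) ≫ L.d (p - 1) p) =
        (h i).hom p (p - 1) ≫ L.d (p - 1) p := by simp
    have e3 : Limits.Sigma.ι (fun (_ : ℕ) => K.X p) i ≫ f.f p =
        Limits.Sigma.ι (fun (_ : ℕ) => K.X p) i ≫
        (((Limits.Sigma.map fun (_ : ℕ) => K.d p (p + 1)) ≫
          Limits.Sigma.desc (fun j => (h j).hom (p + 1) p)) +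
        ((Limits.Sigma.desc fun j => (h j).hom p (p - 1)) ≫ L.d (p - 1) p) + 0) := by
      rw [add_zero, comp_add, e1, e2]
      refine h1.trans ?_
      simp
    exact e3

variable [HasZeroObject C] [HasBinaryBiproducts C]

instance isIdempotentComplete_homotopyCategory :
    IsIdempotentComplete (HomotopyCategory C (ComplexShape.up ℤ)) where
  idempotents_split X e he := by
    obtain ⟨K, rfl⟩ := HomotopyCategory.quotient_obj_surjective X
    let Q := HomotopyCategory.quotient C (ComplexShape.up ℤ)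
    have huniq0 : ∀ {Z : HomotopyCategory C (ComplexShape.up ℤ)} (f : Q.obj (copow K) ⟶ Z),
        (∀ i, Q.map (copowι K i) ≫ f = 0) → f = 0 := by
      intro Z f hf
      obtain ⟨L, rfl⟩ := HomotopyCategory.quotient_obj_surjective Z
      obtain ⟨φ, rfl⟩ := Q.map_surjective f
      rw [HomotopyCategory.quotient_map_eq_zero_iff]
      have h : ∀ i, Nonempty (Homotopy (copowι K i ≫ φ) 0) := by
        intro i
        rw [← HomotopyCategory.quotient_map_eq_zero_iff, Functor.map_comp]
        exact hf i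
      exact ⟨copowHomotopy φ fun i => (h i).some⟩
    exact split_of_copower (S := Q.obj (copow K)) (fun i => Q.map (copowι K i))
      (fun f g h => by
        rw [← sub_eq_zero]
        apply huniq0
        intro i
        rw [comp_sub, h i, sub_self])
      (by
        intro Z f
        obtain ⟨L, rfl⟩ := HomotopyCategory.quotient_obj_surjective Z
        choose φ hφ using fun i => Q.map_surjective (f i)
        refine ⟨Q.map (copowDesc φ), fun i => ?_⟩
        rw [← Functor.map_comp, copowι_desc, hφ])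
      e he

end homotopy

section subcategory

variable {T : Type w} [Category.{v} T] [IsIdempotentComplete T]

lemma isIdempotentComplete_fullSubcategory (P : ObjectProperty T) [P.IsStableUnderRetracts] :
    IsIdempotentComplete P.FullSubcategory where
  idempotents_split X e he := by
    obtain ⟨Y, i, r, h1, h2⟩ := IsIdempotentComplete.idempotents_split (P.ι.obj X) (P.ι.map e)
      (by rw [← Functor.map_comp, he])
    have hY : P Y := P.prop_of_retract (Retract.mk i r h1) X.2
    refine ⟨⟨Y, hY⟩, P.fullyFaithfulι.preimage (X := ⟨Y, hY⟩) i,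
      P.fullyFaithfulι.preimage (Y := ⟨Y, hY⟩) r, ?_, ?_⟩
    · apply P.ι.map_injective
      rw [Functor.map_comp, Functor.FullyFaithful.map_preimage,
        Functor.FullyFaithful.map_preimage]
      exact h1
    · apply P.ι.map_injective
      rw [Functor.map_comp, Functor.FullyFaithful.map_preimage,
        Functor.FullyFaithful.map_preimage]
      exact h2

end subcategory

end Pool.Agent.V1166.Sph
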