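import Pool.Agent.V1166.Sph.GrCat

/-!
The graded category with two points `false` (the first object) and `true` (the second object).
-/

namespace Pool.Agent.V1166.Sph

/-- Lowest level of morphisms from `x` to `y`. -/
def lo (n : ℕ) : Bool → Bool → ℤ
  | false, true => n - 1
  | _, _ => 0

/-- Highest level of morphisms from `x` to `y`. -/
def hi (n : ℕ) : Bool → Bool → ℤ
  | true, false => 1
  | _, _ => n

/-- The condition for the composition of basis elements of levels `j` and `j'` to be nonzero. -/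
def cond (n : ℕ) : Bool → Bool → Bool → ℤ → ℤ → Prop
  | false, false, false, j, j' => j + j' ≤ n
  | false, false, true, j, j' => j + j' ≤ n
  | false, true, true, _, j' => j' = 0
  | false, true, false, j, j' => j + j' ≤ n
  | true, false, false, j, j' => j + j' ≤ 1
  | true, true, false, j, _ => j = 0
  | true, true, true, j, j' => j + j' ≤ n
  | true, false, true, j, j' => j + j' = n

/-- The graded category: `false` has endomorphisms `t₁^j`, `true` has endomorphisms `t₂^j`,
`j = 0, ..., n`, there are `g, t₁ g` from `true` to `false` in levels `0, 1` and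
`m, m t₁` from `false` to `true` in levels `n - 1, n`. -/
def alg (n : ℕ) (hn : 3 ≤ n) (k : ℤ) (hk : k ≠ 0) : GrData Bool where
  S x y p := ∃ j, p = k * j ∧ lo n x y ≤ j ∧ j ≤ hi n x y
  c x y z p q := ∃ j j', p = k * j ∧ q = k * j' ∧ lo n x y ≤ j ∧ j ≤ hi n x y ∧
    lo n y z ≤ j' ∧ j' ≤ hi n y z ∧ cond n x y z j j'
  c_S := by
    rintro x y z p q ⟨j, j', rfl, rfl, h1, h2, h3, h4, h5⟩
    refine ⟨⟨j, rfl, h1, h2⟩, ⟨j', rfl, h3, h4⟩, ⟨j + j', by ring, ?_, ?_⟩⟩ <;>
      cases x <;> cases y <;> cases z <;> simp only [lo, hi, cond] at * <;> omega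
  id_S x := ⟨0, by ring, by cases x <;> simp [lo], by cases x <;> simp [hi]⟩
  id_c := by
    rintro x y p ⟨j, rfl, h1, h2⟩
    refine ⟨0, j, by ring, rfl, ?_, ?_, h1, h2, ?_⟩ <;>
      cases x <;> cases y <;> simp only [lo, hi, cond] at * <;> omega
  c_id := by
    rintro x y p ⟨j, rfl, h1, h2⟩
    refine ⟨j, 0, rfl, by ring, h1, h2, ?_, ?_, ?_⟩ <;>
      cases x <;> cases y <;> simp only [lo, hi, cond] at * <;> omega
  assoc := by
    intro x y z w p q r
    constructor
    · rintro ⟨⟨j, j', rfl, rfl, h1, h2, h3, h4, h5⟩, ⟨m, m', h6, rfl, h7, h8, h9, h10, h11⟩⟩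
      obtain rfl : m = j + j' := by
        apply mul_left_cancel₀ hk
        rw [← h6]
        ring
      refine ⟨⟨j', m', rfl, rfl, h3, h4, h9, h10, ?_⟩,
        ⟨j, j' + m', rfl, by ring, h1, h2, ?_, ?_, ?_⟩⟩ <;>
      cases x <;> cases y <;> cases z <;> cases w <;> simp only [lo, hi, cond] at * <;> omega
    · rintro ⟨⟨j', m', rfl, rfl, h1, h2, h3, h4, h5⟩, ⟨j, m, rfl, h6, h7, h8, h9, h10, h11⟩⟩
      obtain rfl : m = j' + m' := by
        apply mul_left_cancel₀ hk
        rw [← h6]
        ring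
      refine ⟨⟨j, j', rfl, rfl, h7, h8, h1, h2, ?_⟩,
        ⟨j + j', m', by ring, rfl, ?_, ?_, h3, h4, ?_⟩⟩ <;>
      cases x <;> cases y <;> cases z <;> cases w <;> simp only [lo, hi, cond] at * <;> omega

end Pool.Agent.V1166.Sph
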