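import Mathlib.Algebra.FiveLemma
import Mathlib.Algebra.Exact.Basic
import Mathlib.CategoryTheory.Linear.Basic
import Mathlib.CategoryTheory.Linear.LinearFunctor
import Mathlib.CategoryTheory.Triangulated.Subcategory
import Mathlib.CategoryTheory.Triangulated.TriangleShift
import Mathlib.LinearAlgebra.Dual.Lemmas
import Mathlib.RingTheory.Finiteness.Finsupp

/-!
Devissage lemmas in triangulated categories generated by a family of objects.
-/

open CategoryTheory Limits Pretriangulated ZeroObject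

namespace Pool.Agent.V1166.Sph

universe u v w

section general

variable {A : Type w} [Category.{v} A] [Preadditive A]
  [HasZeroObject A] [HasShift A ℤ] [∀ i : ℤ, (shiftFunctor A i).Additive] [Pretriangulated A]

/-- The property of having all shifts satisfying a given property. -/
def allShifts (W₀ : ObjectProperty A) : ObjectProperty A := fun X => ∀ i : ℤ, W₀ (X⟦i⟧)

lemma allShifts_isTriangulated (W₀ : ObjectProperty A) [W₀.IsStableUnderRetracts]
    (hz : ∀ X : A, IsZero X → W₀ X)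
    (ht : ∀ T ∈ distTriang A, W₀ (T.obj₃⟦(-1 : ℤ)⟧) → W₀ T.obj₁ → W₀ T.obj₃ →
      W₀ (T.obj₁⟦(1 : ℤ)⟧) → W₀ T.obj₂) :
    (allShifts W₀).IsTriangulated ∧ (allShifts W₀).IsStableUnderRetracts := by
  have hr : (allShifts W₀).IsStableUnderRetracts :=
    { of_retract := fun {X Y} r hY i => W₀.prop_of_retract (r.map (shiftFunctor A i)) (hY i) }
  refine ⟨?_, hr⟩
  have hiso : W₀.IsClosedUnderIsomorphisms := inferInstance
  have h1 : (allShifts W₀).ContainsZero :=
    ⟨0, isZero_zero A, fun i => hz _ ((shiftFunctor A i).map_isZero (isZero_zero A))⟩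
  have h2 : (allShifts W₀).IsStableUnderShift ℤ :=
    { isStableUnderShiftBy := fun a => ⟨fun X hX i =>
        W₀.prop_of_iso ((shiftFunctorAdd A a i).app X) (hX (a + i))⟩ }
  have h3 : (allShifts W₀).IsTriangulatedClosed₂ := by
    apply ObjectProperty.IsTriangulatedClosed₂.mk'
    intro T hT hT1 hT3 i
    have hT' := Triangle.shift_distinguished T hT i
    refine ht _ hT' ?_ (hT1 i) (hT3 i) ?_
    · exact W₀.prop_of_iso ((shiftFunctorAdd A i (-1)).app T.obj₃) (hT3 (i + -1))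
    · exact W₀.prop_of_iso ((shiftFunctorAdd A i 1).app T.obj₁) (hT1 (i + 1))
  exact {}

/-- Devissage: a property with the two out of five property for distinguished triangles, which
holds for all shifts of the generators, holds for all objects. -/
theorem devissage {P : Bool → A}
    (hgen : ∀ Q : ObjectProperty A, Q.IsTriangulated → Q.IsStableUnderRetracts →
      Q (P false) → Q (P true) → ∀ X, Q X)
    (W₀ : ObjectProperty A) [W₀.IsStableUnderRetracts]
    (hz : ∀ X : A, IsZero X → W₀ X)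
    (ht : ∀ T ∈ distTriang A, W₀ (T.obj₃⟦(-1 : ℤ)⟧) → W₀ T.obj₁ → W₀ T.obj₃ →
      W₀ (T.obj₁⟦(1 : ℤ)⟧) → W₀ T.obj₂)
    (hP : ∀ (y : Bool) (i : ℤ), W₀ ((P y)⟦i⟧)) (X : A) : W₀ X := by
  have h := allShifts_isTriangulated W₀ hz ht
  have h1 := hgen (allShifts W₀) h.1 h.2 (hP false) (hP true) X
  have hiso : W₀.IsClosedUnderIsomorphisms := inferInstance
  exact W₀.prop_of_iso ((shiftFunctorZero A ℤ).app X) (h1 0)

end general

section linear

variable {𝕜 : Type u} [Field 𝕜] {A : Type w} [Category.{v} A] [Preadditive A] [Linear 𝕜 A]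

lemma dual_exact {V₁ V₂ V₃ : Type*} [AddCommGroup V₁] [AddCommGroup V₂] [AddCommGroup V₃]
    [Module 𝕜 V₁] [Module 𝕜 V₂] [Module 𝕜 V₃] (f : V₁ →ₗ[𝕜] V₂) (g : V₂ →ₗ[𝕜] V₃)
    (h : Function.Exact f g) : Function.Exact g.dualMap f.dualMap := by
  rw [LinearMap.exact_iff] at h ⊢
  rw [LinearMap.ker_dualMap_eq_dualAnnihilator_range, ← h,
    LinearMap.range_dualMap_eq_dualAnnihilator_ker]

/-- The pairing attached to a linear form. -/
def pairing (Q Z : A) (tr : (Q ⟶ Z) →ₗ[𝕜] 𝕜) (X : A) :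
    (Q ⟶ X) →ₗ[𝕜] Module.Dual 𝕜 (X ⟶ Z) :=
  (Linear.comp Q X Z).compr₂ tr

lemma pairing_apply (Q Z : A) (tr : (Q ⟶ Z) →ₗ[𝕜] 𝕜) (X : A) (f : Q ⟶ X) (g : X ⟶ Z) :
    pairing Q Z tr X f g = tr (f ≫ g) := rfl

/-- The property that the pairing is perfect. -/
def Perfect (Q Z : A) (tr : (Q ⟶ Z) →ₗ[𝕜] 𝕜) : ObjectProperty A :=
  fun X => Function.Bijective (pairing Q Z tr X)

instance (Q Z : A) (tr : (Q ⟶ Z) →ₗ[𝕜] 𝕜) : (Perfect Q Z tr).IsStableUnderRetracts where
  of_retract {X Y} r hY := by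
    constructor
    · rw [injective_iff_map_eq_zero]
      intro f hf
      have h1 : f ≫ r.i = 0 := by
        apply hY.1
        rw [map_zero]
        ext g
        rw [pairing_apply, Category.assoc, ← pairing_apply, hf]
        rfl
      calc f = f ≫ r.i ≫ r.r := by simp
        _ = 0 := by rw [reassoc_of% h1, zero_comp]
    · intro φ
      obtain ⟨f, hf⟩ := hY.2 (φ ∘ₗ Linear.leftComp 𝕜 Z r.i)
      refine ⟨f ≫ r.r, ?_⟩
      ext g
      have h1 := LinearMap.congr_fun hf (r.r ≫ g)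
      rw [pairing_apply, LinearMap.comp_apply, Linear.leftComp_apply] at h1
      rw [pairing_apply, Category.assoc, h1]
      simp

variable [HasZeroObject A] [HasShift A ℤ] [∀ i : ℤ, (shiftFunctor A i).Additive]
  [Pretriangulated A]

lemma rightComp_exact₂ (Q : A) (T : Triangle A) (hT : T ∈ distTriang A) :
    Function.Exact (Linear.rightComp 𝕜 Q T.mor₁) (Linear.rightComp 𝕜 Q T.mor₂) := by
  intro f
  constructor
  · intro hf
    obtain ⟨g, hg⟩ := Triangle.coyoneda_exact₂ T hT f hf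
    exact ⟨g, hg.symm⟩
  · rintro ⟨g, rfl⟩
    simp [comp_distTriang_mor_zero₁₂ T hT]

lemma leftComp_exact₂ (Z : A) (T : Triangle A) (hT : T ∈ distTriang A) :
    Function.Exact (Linear.leftComp 𝕜 Z T.mor₂) (Linear.leftComp 𝕜 Z T.mor₁) := by
  intro f
  constructor
  · intro hf
    obtain ⟨g, hg⟩ := Triangle.yoneda_exact₂ T hT f hf
    exact ⟨g, hg.symm⟩
  · rintro ⟨g, rfl⟩
    simp [comp_distTriang_mor_zero₁₂_assoc T hT]

lemma perfect_ext (Q Z : A) (tr : (Q ⟶ Z) →ₗ[𝕜] 𝕜) (T : Triangle A) (hT : T ∈ distTriang A)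
    (h0 : Perfect Q Z tr (T.obj₃⟦(-1 : ℤ)⟧)) (h1 : Perfect Q Z tr T.obj₁)
    (h3 : Perfect Q Z tr T.obj₃) (h4 : Perfect Q Z tr (T.obj₁⟦(1 : ℤ)⟧)) :
    Perfect Q Z tr T.obj₂ := by
  have hT' := inv_rot_of_distTriang _ hT
  have hT'' := rot_of_distTriang _ hT
  have e1 := rightComp_exact₂ (𝕜 := 𝕜) Q _ hT'
  have e2 := rightComp_exact₂ (𝕜 := 𝕜) Q _ hT
  have e3 := rightComp_exact₂ (𝕜 := 𝕜) Q _ hT''
  have f1 := dual_exact _ _ (leftComp_exact₂ (𝕜 := 𝕜) Z _ hT')
  have f2 := dual_exact _ _ (leftComp_exact₂ (𝕜 := 𝕜) Z _ hT)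
  have f3 := dual_exact _ _ (leftComp_exact₂ (𝕜 := 𝕜) Z _ hT'')
  have nat : ∀ {X Y : A} (φ : X ⟶ Y), (Linear.leftComp 𝕜 Z φ).dualMap ∘ₗ pairing Q Z tr X =
      pairing Q Z tr Y ∘ₗ Linear.rightComp 𝕜 Q φ := by
    intro X Y φ
    ext f g
    simp only [LinearMap.comp_apply, LinearMap.dualMap_apply, pairing_apply,
      Linear.leftComp_apply, Linear.rightComp_apply, Category.assoc]
  exact LinearMap.bijective_of_surjective_of_bijective_of_bijective_of_injective
    _ _ _ _ _ _ _ _ _ _ _ _ _ (nat _) (nat _) (nat _) (nat _) e1 e2 e3 f1 f2 f3 h0.2 h1 h3 h4.1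

end linear

end Pool.Agent.V1166.Sph
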