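import Pool.Agent.V1166.Sph.Generator
import Pool.Agent.V1166.Sph.Devissage

/-!
The two objects are Calabi-Yau.
-/

open CategoryTheory Limits Pretriangulated

namespace Pool.Agent.V1166.Sph

universe u v w

variable {𝕜 : Type u} [Field 𝕜] {n : ℕ} {hn : 3 ≤ n} {k : ℤ} {hk : k ≠ 0}

lemma alg_S_symm {x y : Bool} {i d : ℤ} (hd : d = n * k) :
    (alg n hn k hk).S x y i → (alg n hn k hk).S y x (d - i) := by
  rintro ⟨j, rfl, h1, h2⟩
  refine ⟨n - j, by rw [hd]; ring, ?_, ?_⟩ <;> cases x <;> cases y <;>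
    simp only [lo, hi] at * <;> omega

lemma alg_S_symm' {x y : Bool} {i d : ℤ} (hd : d = n * k) :
    (alg n hn k hk).S y x (d - i) → (alg n hn k hk).S x y i := by
  intro h
  have := alg_S_symm hd h
  rwa [sub_sub_cancel] at this

lemma alg_c_symm {x y : Bool} {i d : ℤ} (hd : d = n * k) :
    (alg n hn k hk).S x y i → (alg n hn k hk).c x y x i (d - i) := by
  rintro ⟨j, rfl, h1, h2⟩
  refine ⟨j, n - j, rfl, by rw [hd]; ring, h1, h2, ?_, ?_, ?_⟩ <;> cases x <;> cases y <;>
    simp only [lo, hi, cond] at * <;> omega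

variable {A : Type w} [Category.{v} A] [Preadditive A] [Linear 𝕜 A] [HasShift A ℤ]
  [∀ i : ℤ, (shiftFunctor A i).Additive] [∀ i : ℤ, (shiftFunctor A i).Linear 𝕜]
  {P : Bool → A}

/-- Morphisms from a shifted object to a shifted object. -/
noncomputable def shHom (X Y : A) (i d : ℤ) :
    ShiftedHom X Y (d - i) →ₗ[𝕜] (X⟦i⟧ ⟶ Y⟦d⟧) where
  toFun g := g⟦i⟧' ≫ (shiftFunctorAdd' A (d - i) i d (by ring)).inv.app Y
  map_add' f g := by rw [Functor.map_add, Preadditive.add_comp]
  map_smul' c f := by rw [Functor.map_smul, Linear.smul_comp]; rfl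

lemma shHom_bij (X Y : A) (i d : ℤ) : Function.Bijective (shHom (𝕜 := 𝕜) X Y i d) := by
  constructor
  · intro f g h
    apply (shiftFunctor A i).map_injective
    change f⟦i⟧' ≫ (shiftFunctorAdd' A (d - i) i d (by ring)).inv.app Y =
      g⟦i⟧' ≫ (shiftFunctorAdd' A (d - i) i d (by ring)).inv.app Y at h
    exact (cancel_mono _).1 h
  · intro g
    obtain ⟨f, hf⟩ := (shiftFunctor A i).map_surjective
      (g ≫ (shiftFunctorAdd' A (d - i) i d (by ring)).hom.app Y)
    refine ⟨f, ?_⟩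
    change f⟦i⟧' ≫ (shiftFunctorAdd' A (d - i) i d (by ring)).inv.app Y = g
    rw [hf]
    simp

lemma comp_shHom {X Y Z : A} {i d : ℤ} (f : ShiftedHom X Y i) (g : ShiftedHom Y Z (d - i)) :
    f ≫ shHom (𝕜 := 𝕜) Y Z i d g = f.comp g (by ring) := rfl

lemma perfect_generator (M : GrModel 𝕜 (alg n hn k hk) P) (x y : Bool) (i d : ℤ)
    (hd : d = n * k) :
    Perfect (P x) ((P x)⟦d⟧) (M.sc x x d) ((P y)⟦i⟧) := by
  have key : ∀ (f : ShiftedHom (P x) (P y) i) (g : ShiftedHom (P y) (P x) (d - i)),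
      pairing (P x) ((P x)⟦d⟧) (M.sc x x d) ((P y)⟦i⟧) f
        (shHom (𝕜 := 𝕜) (P y) (P x) i d g) =
      (alg n hn k hk).e 𝕜 x y x i (d - i) * (M.sc x y i f * M.sc y x (d - i) g) := by
    intro f g
    rw [pairing_apply, comp_shHom, M.comp]
  by_cases hS : (alg n hn k hk).S x y i
  · have he : (alg n hn k hk).e 𝕜 x y x i (d - i) = 1 := GrData.e_of_c _ (alg_c_symm hd hS)
    obtain ⟨g₁, hg₁⟩ := M.surj (alg_S_symm hd hS) 1
    have hg : ∀ g : ShiftedHom (P y) (P x) (d - i), g = M.sc y x (d - i) g • g₁ := by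
      intro g
      apply M.inj
      rw [map_smul, hg₁]
      simp
    constructor
    · rw [injective_iff_map_eq_zero]
      intro f hf
      have h1 := key f g₁
      rw [hf, he, hg₁] at h1
      apply M.inj
      simpa using h1.symm
    · intro φ
      obtain ⟨f, hf⟩ := M.surj hS (φ (shHom (𝕜 := 𝕜) (P y) (P x) i d g₁))
      refine ⟨f, ?_⟩
      ext g'
      obtain ⟨g, rfl⟩ := (shHom_bij (𝕜 := 𝕜) (P y) (P x) i d).2 g'
      rw [key, he, hf]
      conv_rhs => rw [hg g, map_smul, map_smul]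
      simp [mul_comm]
  · have hS' : ¬ (alg n hn k hk).S y x (d - i) := fun h => hS (alg_S_symm' hd h)
    have h1 : ∀ f : ShiftedHom (P x) (P y) i, f = 0 := by
      intro f
      apply M.inj
      rw [M.supp hS, map_zero]
    have h2 : ∀ g : (P y)⟦i⟧ ⟶ (P x)⟦d⟧, g = 0 := by
      intro g'
      obtain ⟨g, rfl⟩ := (shHom_bij (𝕜 := 𝕜) (P y) (P x) i d).2 g'
      have : g = 0 := by
        apply M.inj
        rw [M.supp hS', map_zero]
      rw [this, map_zero]
    constructor
    · intro f f' _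
      rw [h1 f, h1 f']
    · intro φ
      refine ⟨0, ?_⟩
      ext g
      rw [h2 g, map_zero, map_zero]

variable [HasZeroObject A] [Pretriangulated A]

theorem calabiYau (M : GrModel 𝕜 (alg n hn k hk) P)
    (hgen : ∀ Q : ObjectProperty A, Q.IsTriangulated → Q.IsStableUnderRetracts →
      Q (P false) → Q (P true) → ∀ X, Q X) (x : Bool) :
    IsCalabiYau 𝕜 (P x) (n * k) := by
  have h := devissage hgen (Perfect (P x) ((P x)⟦((n : ℤ) * k)⟧) (M.sc x x (n * k)))
    (by
      intro X hX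
      constructor
      · intro f g _
        exact hX.eq_of_tgt _ _
      · intro φ
        refine ⟨0, ?_⟩
        ext g
        rw [hX.eq_of_src g 0, map_zero, map_zero])
    (fun T hT => perfect_ext _ _ _ T hT)
    (fun y i => perfect_generator M x y i _ rfl)
  refine ⟨fun X => LinearEquiv.ofBijective _ (h X), ?_⟩
  intro X Y φ f g
  change pairing _ _ _ _ (f ≫ φ) g = pairing _ _ _ _ f (φ ≫ g)
  rw [pairing_apply, pairing_apply, Category.assoc]

theorem isPObject (M : GrModel 𝕜 (alg n hn k hk) P)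
    (hgen : ∀ Q : ObjectProperty A, Q.IsTriangulated → Q.IsStableUnderRetracts →
      Q (P false) → Q (P true) → ∀ X, Q X) (x : Bool) :
    IsPObject 𝕜 n k (P x) where
  exists_generator := exists_generator M x
  cy := calabiYau M hgen x

end Pool.Agent.V1166.Sph
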