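import Mathlib.Algebra.DirectSum.Module
import Mathlib.Algebra.Homology.HomotopyCategory.Triangulated
import Mathlib.CategoryTheory.Adjunction.Basic
import Mathlib.CategoryTheory.Idempotents.Basic
import Mathlib.CategoryTheory.Linear.LinearFunctor
import Mathlib.CategoryTheory.Shift.ShiftedHom
import Mathlib.CategoryTheory.Triangulated.Subcategory
import Mathlib.LinearAlgebra.Dual.Defs
import Mathlib.RingTheory.Finiteness.Defs

/-!
Definitions: Calabi-Yau objects, `ℙⁿ[k]`-objects, dual cotwists and spherification functors.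
-/

open CategoryTheory Limits Pretriangulated

namespace Pool.Agent.V1166.Sph

universe u v w v' w' v'' w''

section objects

variable (𝕜 : Type u) [Field 𝕜] {A : Type w} [Category.{v} A] [Preadditive A] [Linear 𝕜 A]
  [HasShift A ℤ]

/-- The object `Q` is `d`-Calabi-Yau: `Hom(Q, X)` is isomorphic to the dual of `Hom(X, Q⟦d⟧)`,
naturally in `X` (replacing `X` by its shifts gives the statement for the graded spaces
`Hom^*`). -/
def IsCalabiYau (Q : A) (d : ℤ) : Prop :=
  ∃ e : ∀ X : A, (Q ⟶ X) ≃ₗ[𝕜] Module.Dual 𝕜 (X ⟶ Q⟦d⟧),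
    ∀ (X Y : A) (φ : X ⟶ Y) (f : Q ⟶ X) (g : Y ⟶ Q⟦d⟧), e Y (f ≫ φ) g = e X f (φ ≫ g)

/-- The power `t ^ j` of `t` in degree `k`, as an element of degree `i = j * k`. -/
noncomputable def tpow {P : A} {k : ℤ} (t : ShiftedHom P P k) :
    (j : ℕ) → (i : ℤ) → (j : ℤ) * k = i → ShiftedHom P P i
  | 0, i, h => ShiftedHom.mk₀ i (by rw [← h]; simp) (𝟙 P)
  | j + 1, i, h => (tpow t j ((j : ℤ) * k) rfl).comp t (by rw [← h]; push_cast; ring)

/-- The object `P` is a `ℙⁿ[k]`-object: there is `t` of degree `k` such that in each degree `i`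
the powers `t ^ j` with `j ≤ n` and `j * k = i` form a basis of `Hom(P, P⟦i⟧)`, and
`t ^ (n + 1) = 0` (that is, `End^*(P)` is isomorphic to `𝕜[t]/t^(n+1)`), and `P` is
`n * k`-Calabi-Yau. -/
structure IsPObject (n : ℕ) (k : ℤ) (P : A) : Prop where
  exists_generator : ∃ t : ShiftedHom P P k,
    (∀ i : ℤ, Function.Bijective
      (fun c : {j : Fin (n + 1) // ((j : ℕ) : ℤ) * k = i} → 𝕜 =>
        ∑ j, c j • tpow t (j.1 : ℕ) i j.2)) ∧
    tpow t (n + 1) _ rfl = 0
  cy : IsCalabiYau 𝕜 P (n * k)

variable (A) in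
/-- All the graded spaces `Hom^*(X, Y) = ⨁ Hom(X, Y⟦i⟧)` are finite-dimensional. -/
def IsProper : Prop :=
  ∀ X Y : A, Module.Finite 𝕜 (DirectSum ℤ (fun i => (X ⟶ Y⟦i⟧)))

end objects

section triangulated

variable (𝕜 : Type u) [Field 𝕜] (A : Type w) [Category.{v} A] [Preadditive A] [Linear 𝕜 A]
  [HasZeroObject A] [HasShift A ℤ] [∀ i : ℤ, (shiftFunctor A i).Additive] [Pretriangulated A]

/-- The linear triangulated category `A` is algebraic: it is equivalent, as a linear
triangulated category, to a full triangulated subcategory of the homotopy category of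
complexes over an additive linear category. -/
def IsAlgebraicTri : Prop :=
  ∃ (D : Type w') (_ : Category.{v'} D) (_ : Preadditive D) (_ : Linear 𝕜 D)
    (_ : HasZeroObject D) (_ : HasBinaryBiproducts D)
    (J : A ⥤ HomotopyCategory D (ComplexShape.up ℤ)) (_ : J.CommShift ℤ),
    J.IsTriangulated ∧ J.Linear 𝕜 ∧ J.Full ∧ J.Faithful

variable {A} {B : Type w''} [Category.{v''} B]

/-- A left adjoint of `F` together with a functorial dual cotwist: a functor `C'`
with natural transformations `α : id ⟶ C'` and `δ` such that the triangles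
`L F X ⟶ X ⟶ C' X ⟶ (L F X)⟦1⟧`, whose first morphism is the counit, are distinguished. -/
structure DualCotwist (F : A ⥤ B) where
  /-- the left adjoint -/
  L : B ⥤ A
  /-- the adjunction -/
  adj : L ⊣ F
  /-- the dual cotwist -/
  C' : A ⥤ A
  /-- the morphism from the identity to the dual cotwist -/
  α : 𝟭 A ⟶ C'
  /-- the connecting morphism -/
  δ : C' ⟶ (F ⋙ L) ⋙ shiftFunctor A (1 : ℤ)
  distinguished : ∀ X : A, Triangle.mk (adj.counit.app X) (α.app X) (δ.app X) ∈ distTriang A

variable [Preadditive B] [Linear 𝕜 B] [HasShift B ℤ]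

/-- With the given dual cotwist, `F` is a spherification functor for the
`ℙⁿ[k]`-object `P`. -/
structure DualCotwist.IsSpherification {F : A ⥤ B} (D : DualCotwist F) (n : ℕ) (k : ℤ)
    (P : A) : Prop where
  iso : Nonempty (D.C'.obj P ≅ P⟦k⟧)
  ne_zero : D.α.app P ≠ 0
  cy : IsCalabiYau 𝕜 (F.obj P) (n * k + k - 1)

end triangulated

end Pool.Agent.V1166.Sph
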