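import Pool.Agent.V1166.Sph.Obstruction

/-!
The endomorphism algebras of the two objects are truncated polynomial algebras.
-/

open CategoryTheory

namespace Pool.Agent.V1166.Sph

universe u v w

variable {𝕜 : Type u} [Field 𝕜] {n : ℕ} {hn : 3 ≤ n} {k : ℤ} {hk : k ≠ 0}
  {A : Type w} [Category.{v} A] [Preadditive A] [Linear 𝕜 A] [HasShift A ℤ] {P : Bool → A}

lemma alg_S_diag (x : Bool) (i : ℤ) :
    (alg n hn k hk).S x x i ↔ ∃ j : ℕ, j ≤ n ∧ (j : ℤ) * k = i := by
  constructor
  · rintro ⟨j, rfl, h1, h2⟩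
    have h3 : 0 ≤ j ∧ j ≤ n := by cases x <;> simp only [lo, hi] at * <;> omega
    refine ⟨j.toNat, by omega, ?_⟩
    rw [Int.toNat_of_nonneg h3.1, mul_comm]
  · rintro ⟨j, hj, rfl⟩
    refine ⟨j, mul_comm _ _, ?_, ?_⟩ <;> cases x <;> simp only [lo, hi] <;> omega

lemma alg_c_diag (x : Bool) (j : ℕ) :
    (alg n hn k hk).c x x x ((j : ℤ) * k) k ↔ j + 1 ≤ n := by
  constructor
  · rintro ⟨a, b, h1, h2, h3, h4, h5, h6, h7⟩
    have ha : a = j := by
      apply mul_left_cancel₀ hk
      rw [← h1, mul_comm]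
    have hb : b = 1 := by
      apply mul_left_cancel₀ hk
      rw [← h2, mul_one]
    subst ha hb
    have : (j : ℤ) + 1 ≤ n := by cases x <;> simpa only [cond] using h7
    omega
  · intro h
    refine ⟨j, 1, mul_comm _ _, by ring, ?_, ?_, ?_, ?_, ?_⟩ <;> cases x <;>
      simp only [lo, hi, cond] <;> omega

lemma sc_tpow (M : GrModel 𝕜 (alg n hn k hk) P) (x : Bool) (t : ShiftedHom (P x) (P x) k)
    (ht : M.sc x x k t = 1) (j : ℕ) :
    ∀ (i : ℤ) (h : (j : ℤ) * k = i), M.sc x x i (tpow t j i h) = if j ≤ n then 1 else 0 := by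
  induction j with
  | zero =>
    intro i h
    rw [tpow, M.one]
    simp
  | succ j hj =>
    intro i h
    rw [tpow, M.comp, hj _ rfl, ht]
    by_cases h1 : j + 1 ≤ n
    · rw [GrData.e_of_c _ ((alg_c_diag x j).2 h1)]
      simp [h1, (Nat.le_succ j).trans h1]
    · rw [GrData.e_of_not_c _ (fun h => h1 ((alg_c_diag x j).1 h))]
      simp [h1]

theorem exists_generator (M : GrModel 𝕜 (alg n hn k hk) P) (x : Bool) :
    ∃ t : ShiftedHom (P x) (P x) k,
    (∀ i : ℤ, Function.Bijective
      (fun c : {j : Fin (n + 1) // ((j : ℕ) : ℤ) * k = i} → 𝕜 =>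
        ∑ j, c j • tpow t (j.1 : ℕ) i j.2)) ∧
    tpow t (n + 1) _ rfl = 0 := by
  have hS : (alg n hn k hk).S x x k := (alg_S_diag x k).2 ⟨1, by omega, by simp⟩
  obtain ⟨t, ht⟩ := M.surj hS 1
  refine ⟨t, fun i => ?_, ?_⟩
  · have hsum : ∀ c : {j : Fin (n + 1) // ((j : ℕ) : ℤ) * k = i} → 𝕜,
        M.sc x x i (∑ j, c j • tpow t (j.1 : ℕ) i j.2) = ∑ j, c j := by
      intro c
      rw [map_sum]
      refine Finset.sum_congr rfl fun j _ => ?_
      rw [map_smul, sc_tpow M x t ht, if_pos (by have := j.1.2; omega)]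
      simp
    by_cases hi : (alg n hn k hk).S x x i
    · obtain ⟨j, hj, hji⟩ := (alg_S_diag x i).1 hi
      let j₀ : {j : Fin (n + 1) // ((j : ℕ) : ℤ) * k = i} := ⟨⟨j, by omega⟩, hji⟩
      have huniq : ∀ j' : {j : Fin (n + 1) // ((j : ℕ) : ℤ) * k = i}, j' = j₀ := by
        rintro ⟨j', hj'⟩
        apply Subtype.ext
        apply Fin.ext
        have : ((j' : ℕ) : ℤ) = j := by
          apply mul_right_cancel₀ hk
          rw [hj', hji]
        exact_mod_cast this
      have hsum' : ∀ c : {j : Fin (n + 1) // ((j : ℕ) : ℤ) * k = i} → 𝕜, ∑ j, c j = c j₀ := by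
        intro c
        exact Fintype.sum_eq_single j₀ (fun j' hj' => (hj' (huniq j')).elim)
      constructor
      · intro c c' h
        have h1 := congr_arg (M.sc x x i) h
        simp only [hsum, hsum'] at h1
        funext j'
        rw [huniq j', h1]
      · intro f
        refine ⟨fun _ => M.sc x x i f, ?_⟩
        apply M.inj
        simp only [hsum, hsum']
    · have hempty : IsEmpty {j : Fin (n + 1) // ((j : ℕ) : ℤ) * k = i} := by
        constructor
        rintro ⟨j, hj⟩
        exact hi ((alg_S_diag x i).2 ⟨j, by have := j.2; omega, hj⟩)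
      constructor
      · intro c c' _
        exact Subsingleton.elim _ _
      · intro f
        refine ⟨0, ?_⟩
        apply M.inj
        rw [M.supp hi f]
        simp [hsum]
  · apply M.inj
    rw [sc_tpow M x t ht, map_zero, if_neg (by omega)]

end Pool.Agent.V1166.Sph
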