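import Mathlib.CategoryTheory.Linear.Basic
import Mathlib.CategoryTheory.Preadditive.Basic
import Mathlib.Algebra.Ring.NegOnePow
import Mathlib.LinearAlgebra.Span.Defs
import Mathlib.Tactic

/-!
Graded linear categories with at most one-dimensional graded pieces and structure constants
in `{0,1}`, and the category obtained from such a thing by adjoining a square zero
element of degree one.
-/

open CategoryTheory

namespace Pool.Agent.V1166.Sph

universe u

/-- Supports and 0/1 structure constants of a graded category with at most one-dimensional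
graded pieces: `S x y p` says that the degree `p` morphisms from `x` to `y` are
one-dimensional (otherwise they vanish), `c x y z p q` says that the composition of the basis
elements of degree `p` from `x` to `y` and of degree `q` from `y` to `z` is the basis element of
degree `p + q` from `x` to `z` (otherwise it vanishes). -/
structure GrData (ι : Type) where
  S : ι → ι → ℤ → Prop
  c : ι → ι → ι → ℤ → ℤ → Prop
  c_S : ∀ {x y z p q}, c x y z p q → S x y p ∧ S y z q ∧ S x z (p + q)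
  id_S : ∀ x, S x x 0
  id_c : ∀ {x y p}, S x y p → c x x y 0 p
  c_id : ∀ {x y p}, S x y p → c x y y p 0
  assoc : ∀ x y z w p q r,
    (c x y z p q ∧ c x z w (p + q) r) ↔ (c y z w q r ∧ c x y w p (q + r))

variable {ι : Type}

/-- The sign `(-1)^q` in a field. -/
def sgn (𝕜 : Type u) [Field 𝕜] (q : ℤ) : 𝕜 := ((q.negOnePow : ℤ) : 𝕜)

section sgn

variable (𝕜 : Type u) [Field 𝕜]

lemma sgn_add (p q : ℤ) : sgn 𝕜 (p + q) = sgn 𝕜 p * sgn 𝕜 q := by
  simp [sgn, Int.negOnePow_add]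

@[simp]
lemma sgn_zero : sgn 𝕜 0 = 1 := by simp [sgn]

@[simp]
lemma sgn_one : sgn 𝕜 1 = -1 := by simp [sgn]

lemma sgn_sub_one (p : ℤ) : sgn 𝕜 (p - 1) = - sgn 𝕜 p := by
  simp [sgn, Int.negOnePow_sub]

@[simp]
lemma sgn_mul_self (p : ℤ) : sgn 𝕜 p * sgn 𝕜 p = 1 := by
  rw [← sgn_add]
  simp [sgn, Int.negOnePow_even _ (Even.add_self p)]

lemma sgn_ne_zero (p : ℤ) : sgn 𝕜 p ≠ 0 := by
  intro h
  have := sgn_mul_self 𝕜 p
  simp [h] at this

lemma sgn_smul {M : Type*} [AddCommGroup M] [Module 𝕜 M] (p : ℤ) (m : M) :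
    p.negOnePow • m = sgn 𝕜 p • m := by
  rw [sgn, Units.smul_def, Int.cast_smul_eq_zsmul]

end sgn

/-- Objects of the category attached to a graded category: pairs of a point and a degree. -/
structure Ob (𝕜 : Type u) (G : GrData ι) where
  pt : ι
  deg : ℤ

namespace GrData

open Classical in
/-- The structure constant as an element of the field. -/
noncomputable def e (𝕜 : Type u) [Field 𝕜] (G : GrData ι) (x y z : ι) (p q : ℤ) : 𝕜 :=
  if G.c x y z p q then 1 else 0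

variable {𝕜 : Type u} [Field 𝕜] (G : GrData ι)

lemma e_of_c {x y z : ι} {p q : ℤ} (h : G.c x y z p q) : G.e 𝕜 x y z p q = 1 := by
  simp [e, h]

lemma e_of_not_c {x y z : ι} {p q : ℤ} (h : ¬ G.c x y z p q) : G.e 𝕜 x y z p q = 0 := by
  simp [e, h]

lemma e_assoc (x y z w : ι) (p q r : ℤ) :
    G.e 𝕜 x y z p q * G.e 𝕜 x z w (p + q) r = G.e 𝕜 y z w q r * G.e 𝕜 x y w p (q + r) := by
  have h := G.assoc x y z w p q r
  by_cases h1 : G.c x y z p q <;> by_cases h2 : G.c x z w (p + q) r <;>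
    by_cases h3 : G.c y z w q r <;> by_cases h4 : G.c x y w p (q + r) <;>
    simp_all [e]

lemma e_ne_zero_left {x y z : ι} {p q : ℤ} (h : ¬ G.S x y p) : G.e 𝕜 x y z p q = 0 :=
  G.e_of_not_c fun h' => h (G.c_S h').1

lemma e_ne_zero_right {x y z : ι} {p q : ℤ} (h : ¬ G.S y z q) : G.e 𝕜 x y z p q = 0 :=
  G.e_of_not_c fun h' => h (G.c_S h').2.1

lemma e_ne_zero_mid {x y z : ι} {p q : ℤ} (h : ¬ G.S x z (p + q)) : G.e 𝕜 x y z p q = 0 :=
  G.e_of_not_c fun h' => h (G.c_S h').2.2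

end GrData

variable {𝕜 : Type u} [Field 𝕜] {G : GrData ι}

namespace Ob

/-- Morphisms: pairs of scalars, the first one supported where there are morphisms of degree
`Y.deg - X.deg`, the second one where there are morphisms of degree `Y.deg - X.deg - 1`. -/
def homSub (X Y : Ob 𝕜 G) : Submodule 𝕜 (𝕜 × 𝕜) where
  carrier := {f | (¬ G.S X.pt Y.pt (Y.deg - X.deg) → f.1 = 0) ∧
    (¬ G.S X.pt Y.pt (Y.deg - X.deg - 1) → f.2 = 0)}
  add_mem' := by
    rintro a b ⟨ha, ha'⟩ ⟨hb, hb'⟩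
    exact ⟨fun h => by simp [ha h, hb h], fun h => by simp [ha' h, hb' h]⟩
  zero_mem' := ⟨fun _ => rfl, fun _ => rfl⟩
  smul_mem' := by
    rintro c a ⟨ha, ha'⟩
    exact ⟨fun h => by simp [ha h], fun h => by simp [ha' h]⟩

/-- The composition on scalars. -/
noncomputable def compFun (X Y Z : Ob 𝕜 G) (f g : 𝕜 × 𝕜) : 𝕜 × 𝕜 :=
  (G.e 𝕜 X.pt Y.pt Z.pt (Y.deg - X.deg) (Z.deg - Y.deg) * (f.1 * g.1),
    G.e 𝕜 X.pt Y.pt Z.pt (Y.deg - X.deg) (Z.deg - Y.deg - 1) * (f.1 * g.2) +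
    sgn 𝕜 (Z.deg - Y.deg) *
      (G.e 𝕜 X.pt Y.pt Z.pt (Y.deg - X.deg - 1) (Z.deg - Y.deg) * (f.2 * g.1)))

lemma compFun_mem (X Y Z : Ob 𝕜 G) (f g : 𝕜 × 𝕜) : compFun X Y Z f g ∈ homSub X Z := by
  refine ⟨fun h => ?_, fun h => ?_⟩
  · have h1 : G.e 𝕜 X.pt Y.pt Z.pt (Y.deg - X.deg) (Z.deg - Y.deg) = 0 := by
      apply G.e_ne_zero_mid
      rwa [show Y.deg - X.deg + (Z.deg - Y.deg) = Z.deg - X.deg by ring]
    simp [compFun, h1]
  · have h1 : G.e 𝕜 X.pt Y.pt Z.pt (Y.deg - X.deg) (Z.deg - Y.deg - 1) = 0 := by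
      apply G.e_ne_zero_mid
      rwa [show Y.deg - X.deg + (Z.deg - Y.deg - 1) = Z.deg - X.deg - 1 by ring]
    have h2 : G.e 𝕜 X.pt Y.pt Z.pt (Y.deg - X.deg - 1) (Z.deg - Y.deg) = 0 := by
      apply G.e_ne_zero_mid
      rwa [show Y.deg - X.deg - 1 + (Z.deg - Y.deg) = Z.deg - X.deg - 1 by ring]
    simp [compFun, h1, h2]

lemma one_mem (X : Ob 𝕜 G) : ((1, 0) : 𝕜 × 𝕜) ∈ homSub X X := by
  refine ⟨fun h => (h ?_).elim, fun _ => rfl⟩
  simpa using G.id_S X.pt

/-- Morphisms as a structure. -/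
@[ext]
structure Mor (X Y : Ob 𝕜 G) : Type u where
  val : 𝕜 × 𝕜
  mem : val ∈ homSub X Y

noncomputable instance : CategoryStruct.{u} (Ob 𝕜 G) where
  Hom X Y := Mor X Y
  id X := ⟨(1, 0), one_mem X⟩
  comp {X Y Z} f g := ⟨compFun X Y Z f.val g.val, compFun_mem X Y Z f.val g.val⟩

@[ext]
lemma hom_ext {X Y : Ob 𝕜 G} {f g : X ⟶ Y} (h : f.val = g.val) : f = g :=
  Mor.ext h

lemma id_val (X : Ob 𝕜 G) : (𝟙 X : X ⟶ X).val = (1, 0) := rfl

lemma comp_val {X Y Z : Ob 𝕜 G} (f : X ⟶ Y) (g : Y ⟶ Z) :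
    (f ≫ g).val = compFun X Y Z f.val g.val := rfl

lemma val_fst {X Y : Ob 𝕜 G} (f : X ⟶ Y) (h : ¬ G.S X.pt Y.pt (Y.deg - X.deg)) :
    f.val.1 = 0 := f.mem.1 h

lemma val_snd {X Y : Ob 𝕜 G} (f : X ⟶ Y) (h : ¬ G.S X.pt Y.pt (Y.deg - X.deg - 1)) :
    f.val.2 = 0 := f.mem.2 h

noncomputable instance : Category.{u} (Ob 𝕜 G) where
  id_comp {X Y} f := by
    apply hom_ext
    rw [comp_val, id_val, compFun]
    ext
    · by_cases h : G.S X.pt Y.pt (Y.deg - X.deg)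
      · simp [G.e_of_c (G.id_c h)]
      · simp [val_fst f h]
    · by_cases h : G.S X.pt Y.pt (Y.deg - X.deg - 1)
      · simp [G.e_of_c (G.id_c h)]
      · simp [val_snd f h]
  comp_id {X Y} f := by
    apply hom_ext
    rw [comp_val, id_val, compFun]
    ext
    · by_cases h : G.S X.pt Y.pt (Y.deg - X.deg)
      · simp [G.e_of_c (G.c_id h)]
      · simp [val_fst f h]
    · by_cases h : G.S X.pt Y.pt (Y.deg - X.deg - 1)
      · simp [G.e_of_c (G.c_id h)]
      · simp [val_snd f h]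
  assoc {X Y Z W} f g h := by
    apply hom_ext
    simp only [comp_val, compFun]
    have e1 := G.e_assoc (𝕜 := 𝕜) X.pt Y.pt Z.pt W.pt (Y.deg - X.deg) (Z.deg - Y.deg)
      (W.deg - Z.deg)
    have e2 := G.e_assoc (𝕜 := 𝕜) X.pt Y.pt Z.pt W.pt (Y.deg - X.deg) (Z.deg - Y.deg)
      (W.deg - Z.deg - 1)
    have e3 := G.e_assoc (𝕜 := 𝕜) X.pt Y.pt Z.pt W.pt (Y.deg - X.deg) (Z.deg - Y.deg - 1)
      (W.deg - Z.deg)
    have e4 := G.e_assoc (𝕜 := 𝕜) X.pt Y.pt Z.pt W.pt (Y.deg - X.deg - 1) (Z.deg - Y.deg)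
      (W.deg - Z.deg)
    rw [show Y.deg - X.deg + (Z.deg - Y.deg) = Z.deg - X.deg by ring] at e1 e2
    rw [show Z.deg - Y.deg + (W.deg - Z.deg) = W.deg - Y.deg by ring] at e1 e4
    rw [show Z.deg - Y.deg + (W.deg - Z.deg - 1) = W.deg - Y.deg - 1 by ring] at e2
    rw [show Y.deg - X.deg + (Z.deg - Y.deg - 1) = Z.deg - X.deg - 1 by ring,
      show Z.deg - Y.deg - 1 + (W.deg - Z.deg) = W.deg - Y.deg - 1 by ring] at e3
    rw [show Y.deg - X.deg - 1 + (Z.deg - Y.deg) = Z.deg - X.deg - 1 by ring] at e4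
    have hs : sgn 𝕜 (W.deg - Y.deg) = sgn 𝕜 (Z.deg - Y.deg) * sgn 𝕜 (W.deg - Z.deg) := by
      rw [← sgn_add]; congr 1; ring
    ext
    · simp only
      linear_combination (f.val.1 * g.val.1 * h.val.1) * e1
    · simp only
      rw [hs]
      linear_combination (f.val.1 * g.val.1 * h.val.2) * e2 +
        sgn 𝕜 (W.deg - Z.deg) * (f.val.1 * g.val.2 * h.val.1) * e3 +
        sgn 𝕜 (W.deg - Z.deg) * sgn 𝕜 (Z.deg - Y.deg) * (f.val.2 * g.val.1 * h.val.1) * e4

/-- Morphisms form a module. -/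
def homEquiv (X Y : Ob 𝕜 G) : (X ⟶ Y) ≃ homSub X Y where
  toFun f := ⟨f.val, f.mem⟩
  invFun f := ⟨f.1, f.2⟩
  left_inv _ := rfl
  right_inv _ := rfl

noncomputable instance (X Y : Ob 𝕜 G) : AddCommGroup (X ⟶ Y) := (homEquiv X Y).addCommGroup

noncomputable instance (X Y : Ob 𝕜 G) : Module 𝕜 (X ⟶ Y) := (homEquiv X Y).module 𝕜

lemma add_val {X Y : Ob 𝕜 G} (f g : X ⟶ Y) : (f + g).val = f.val + g.val := rfl

lemma smul_val {X Y : Ob 𝕜 G} (c : 𝕜) (f : X ⟶ Y) : (c • f).val = c • f.val := rfl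

@[simp]
lemma zero_val {X Y : Ob 𝕜 G} : (0 : X ⟶ Y).val = 0 := rfl

noncomputable instance : Preadditive (Ob 𝕜 G) where
  add_comp := by
    intros
    apply hom_ext
    simp only [comp_val, add_val, compFun]
    ext <;> simp <;> ring
  comp_add := by
    intros
    apply hom_ext
    simp only [comp_val, add_val, compFun]
    ext <;> simp <;> ring

noncomputable instance : Linear 𝕜 (Ob 𝕜 G) where
  smul_comp := by
    intros
    apply hom_ext
    simp only [comp_val, smul_val, compFun]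
    ext <;> simp <;> ring
  comp_smul := by
    intros
    apply hom_ext
    simp only [comp_val, smul_val, compFun]
    ext <;> simp <;> ring

end Ob

end Pool.Agent.V1166.Sph
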