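import Pool.Agent.V1166.Sph.Unroll

/-!
Families of objects in a linear category with shift whose shifted morphisms realize a
graded category with structure constants, and the family of unrolled complexes.
-/

open CategoryTheory

namespace Pool.Agent.V1166.Sph

universe u v w

variable {ι : Type}

/-- A family of objects of a linear category with shift whose shifted morphisms form the
graded category with structure constants given by `G`. -/
structure GrModel (𝕜 : Type u) [Field 𝕜] (G : GrData ι) {A : Type w} [Category.{v} A]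
    [Preadditive A] [Linear 𝕜 A] [HasShift A ℤ] (P : ι → A) where
  sc : ∀ (x y : ι) (j : ℤ), ShiftedHom (P x) (P y) j →ₗ[𝕜] 𝕜
  inj : ∀ x y j, Function.Injective (sc x y j)
  surj : ∀ {x y j}, G.S x y j → Function.Surjective (sc x y j)
  supp : ∀ {x y j}, ¬ G.S x y j → ∀ f, sc x y j f = 0
  comp : ∀ {x y z : ι} {a b c : ℤ} (h : b + a = c) (f : ShiftedHom (P x) (P y) a)
    (g : ShiftedHom (P y) (P z) b),
    sc x z c (f.comp g h) = G.e 𝕜 x y z a b * (sc x y a f * sc y z b g)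
  one : ∀ (x : ι) (m : ℤ) (h : m = 0), sc x x m (ShiftedHom.mk₀ m h (𝟙 (P x))) = 1

section quotient

variable {𝕜 : Type u} [Field 𝕜] {G : GrData ι}

/-- The quotient functor to the homotopy category. -/
noncomputable abbrev QQ (𝕜 : Type u) [Field 𝕜] (G : GrData ι) :
    CochainComplex (Ob 𝕜 G) ℤ ⥤ HomotopyCategory (Ob 𝕜 G) (ComplexShape.up ℤ) :=
  HomotopyCategory.quotient (Ob 𝕜 G) (ComplexShape.up ℤ)

lemma exists_shiftedHom {K L : CochainComplex (Ob 𝕜 G) ℤ} {j : ℤ}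
    (f : ShiftedHom ((QQ 𝕜 G).obj K) ((QQ 𝕜 G).obj L) j) :
    ∃ φ : ShiftedHom K L j, φ.map (QQ 𝕜 G) = f := by
  obtain ⟨φ, hφ⟩ := (QQ 𝕜 G).map_surjective (f ≫ ((QQ 𝕜 G).commShiftIso j).inv.app L)
  refine ⟨φ, ?_⟩
  rw [ShiftedHom.map, hφ]
  simp

lemma shiftedHom_map_eq_zero {K L : CochainComplex (Ob 𝕜 G) ℤ} {j : ℤ}
    (φ : ShiftedHom K L j) : φ.map (QQ 𝕜 G) = 0 ↔ Nonempty (Homotopy φ 0) := by
  rw [← HomotopyCategory.quotient_map_eq_zero_iff, ShiftedHom.map]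
  constructor
  · intro h
    have := h =≫ ((QQ 𝕜 G).commShiftIso j).inv.app L
    simpa using this
  · intro h
    rw [h, Limits.zero_comp]

/-- The first scalar of a chain map between shifts of unrolled complexes. -/
noncomputable def sc₀ (𝕜 : Type u) [Field 𝕜] (G : GrData ι) (x y : ι) (j : ℤ) :
    ShiftedHom (unroll 𝕜 G x) (unroll 𝕜 G y) j →ₗ[𝕜] 𝕜 where
  toFun φ := (HomologicalComplex.Hom.f φ 0).val.1
  map_add' φ ψ := by
    rw [HomologicalComplex.add_f_apply, Ob.add_val]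
    rfl
  map_smul' c φ := by
    rw [HomologicalComplex.smul_f_apply, Ob.smul_val]
    rfl

lemma unr_shift (y : ι) (j : ℤ) : Unr ((unroll 𝕜 G y)⟦j⟧) y (0 + j) :=
  (unr_unroll y).shift j

lemma sc₀_eq (x y : ι) (j : ℤ) (φ : ShiftedHom (unroll 𝕜 G x) (unroll 𝕜 G y) j) (i : ℤ) :
    sc₀ 𝕜 G x y j φ = (HomologicalComplex.Hom.f φ i).val.1 :=
  (unr_unroll x).const' (unr_shift y j) φ 0 i

lemma sc₀_eq_zero_iff (x y : ι) (j : ℤ)
    (φ : ShiftedHom (unroll 𝕜 G x) (unroll 𝕜 G y) j) :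
    sc₀ 𝕜 G x y j φ = 0 ↔ φ.map (QQ 𝕜 G) = 0 := by
  rw [shiftedHom_map_eq_zero]
  constructor
  · intro h
    exact (unr_unroll x).homotopy_of_fst (unr_shift y j) φ h
  · rintro ⟨H⟩
    exact (unr_unroll x).fst_of_homotopy (unr_shift y j) φ H 0

lemma comp_eqToHom_fst {X Y Z : Ob 𝕜 G} (f : X ⟶ Y) (h : Y = Z) :
    (f ≫ eqToHom h).val.1 = f.val.1 := by
  subst h
  simp

lemma sc₀_comp (x y z : ι) {a b c : ℤ} (h : b + a = c)
    (f : ShiftedHom (unroll 𝕜 G x) (unroll 𝕜 G y) a)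
    (g : ShiftedHom (unroll 𝕜 G y) (unroll 𝕜 G z) b) :
    sc₀ 𝕜 G x z c (f.comp g h) =
      G.e 𝕜 x y z a b * (sc₀ 𝕜 G x y a f * sc₀ 𝕜 G y z b g) := by
  have h1 : (HomologicalComplex.Hom.f (f.comp g h) 0).val.1 =
      (HomologicalComplex.Hom.f f 0 ≫ HomologicalComplex.Hom.f g (0 + a) ≫
        ((unroll 𝕜 G z).XIsoOfEq (show 0 + a + b = 0 + c by rw [← h]; ring)).hom).val.1 := by
    rw [ShiftedHom.comp, HomologicalComplex.comp_f, HomologicalComplex.comp_f,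
      CochainComplex.shiftFunctorAdd'_inv_app_f']
    rfl
  rw [sc₀_eq y z b g (0 + a)]
  change (HomologicalComplex.Hom.f (f.comp g h) 0).val.1 = _
  rw [h1, ← Category.assoc, HomologicalComplex.XIsoOfEq, eqToIso.hom]
  refine (comp_eqToHom_fst _ _).trans ?_
  change G.e 𝕜 x y z (0 + a - 0) (0 + a + b - (0 + a)) * _ = _
  rw [show 0 + a - 0 = a by ring, show 0 + a + b - (0 + a) = b by ring]
  rfl

lemma sc₀_one (x : ι) (m : ℤ) (h : m = 0) :
    sc₀ 𝕜 G x x m (ShiftedHom.mk₀ m h (𝟙 (unroll 𝕜 G x))) = 1 := by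
  subst h
  change (HomologicalComplex.Hom.f (ShiftedHom.mk₀ 0 rfl (𝟙 (unroll 𝕜 G x))) 0).val.1 = 1
  have h1 : HomologicalComplex.Hom.f (ShiftedHom.mk₀ (M := ℤ) 0 rfl (𝟙 (unroll 𝕜 G x))) 0 =
      ((unroll 𝕜 G x).XIsoOfEq (show (0 : ℤ) = 0 + 0 by ring)).hom := by
    rw [ShiftedHom.mk₀, HomologicalComplex.comp_f]
    simp [shiftFunctorZero', CochainComplex.shiftFunctorZero_inv_app_f]
  rw [h1, HomologicalComplex.XIsoOfEq, eqToIso.hom, eqToHom_val]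

lemma sc₀_surj (x y : ι) (j : ℤ) (hS : G.S x y j) :
    Function.Surjective (sc₀ 𝕜 G x y j) := by
  intro a
  obtain ⟨φ, hφ⟩ := (unr_unroll x).exists_hom (unr_shift (𝕜 := 𝕜) y j) (by simpa using hS) a
  exact ⟨φ, hφ 0⟩

lemma sc₀_supp (x y : ι) (j : ℤ) (hS : ¬ G.S x y j)
    (φ : ShiftedHom (unroll 𝕜 G x) (unroll 𝕜 G y) j) : sc₀ 𝕜 G x y j φ = 0 :=
  (unr_unroll x).val_fst (unr_shift (𝕜 := 𝕜) y j) φ 0 (by simpa using hS)

/-- The action of the quotient functor on shifted morphisms as a linear map. -/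
noncomputable def mapQQ (K L : CochainComplex (Ob 𝕜 G) ℤ) (j : ℤ) :
    ShiftedHom K L j →ₗ[𝕜] ShiftedHom ((QQ 𝕜 G).obj K) ((QQ 𝕜 G).obj L) j where
  toFun φ := φ.map (QQ 𝕜 G)
  map_add' _ _ := ShiftedHom.map_add _ _ _
  map_smul' _ _ := ShiftedHom.map_smul _ _ _

lemma mapQQ_surj (K L : CochainComplex (Ob 𝕜 G) ℤ) (j : ℤ) :
    Function.Surjective (mapQQ K L j) := fun f => exists_shiftedHom f

lemma ker_mapQQ (x y : ι) (j : ℤ) :
    LinearMap.ker (mapQQ (unroll 𝕜 G x) (unroll 𝕜 G y) j) = LinearMap.ker (sc₀ 𝕜 G x y j) := by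
  ext φ
  rw [LinearMap.mem_ker, LinearMap.mem_ker, sc₀_eq_zero_iff]
  rfl

/-- The first scalar of a morphism in the homotopy category. -/
noncomputable def scQ (𝕜 : Type u) [Field 𝕜] (G : GrData ι) (x y : ι) (j : ℤ) :
    ShiftedHom ((QQ 𝕜 G).obj (unroll 𝕜 G x)) ((QQ 𝕜 G).obj (unroll 𝕜 G y)) j →ₗ[𝕜] 𝕜 :=
  ((LinearMap.ker (mapQQ (unroll 𝕜 G x) (unroll 𝕜 G y) j)).liftQ (sc₀ 𝕜 G x y j)
    (ker_mapQQ x y j).le) ∘ₗ
    ((mapQQ (unroll 𝕜 G x) (unroll 𝕜 G y) j).quotKerEquivOfSurjective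
      (mapQQ_surj _ _ _)).symm.toLinearMap

lemma scQ_map (x y : ι) (j : ℤ) (φ : ShiftedHom (unroll 𝕜 G x) (unroll 𝕜 G y) j) :
    scQ 𝕜 G x y j (φ.map (QQ 𝕜 G)) = sc₀ 𝕜 G x y j φ := by
  have : ((mapQQ (unroll 𝕜 G x) (unroll 𝕜 G y) j).quotKerEquivOfSurjective
      (mapQQ_surj _ _ _)).symm (φ.map (QQ 𝕜 G)) = Submodule.Quotient.mk φ := by
    rw [LinearEquiv.symm_apply_eq]
    rfl
  rw [scQ, LinearMap.comp_apply, LinearEquiv.coe_coe, this]
  rfl

/-- The unrolled complexes realize the graded category in the homotopy category. -/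
noncomputable def modelQ (𝕜 : Type u) [Field 𝕜] (G : GrData ι) :
    GrModel 𝕜 G (fun x => (QQ 𝕜 G).obj (unroll 𝕜 G x)) where
  sc := scQ 𝕜 G
  inj x y j := by
    rw [injective_iff_map_eq_zero]
    intro f hf
    obtain ⟨φ, rfl⟩ := exists_shiftedHom f
    rw [scQ_map] at hf
    exact (sc₀_eq_zero_iff _ _ _ _).1 hf
  surj {x y j} hS a := by
    obtain ⟨φ, hφ⟩ := sc₀_surj x y j hS a
    exact ⟨φ.map (QQ 𝕜 G), by rw [scQ_map, hφ]⟩
  supp {x y j} hS f := by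
    obtain ⟨φ, rfl⟩ := exists_shiftedHom f
    rw [scQ_map, sc₀_supp _ _ _ hS]
  comp {x y z a b c} h f g := by
    obtain ⟨φ, rfl⟩ := exists_shiftedHom f
    obtain ⟨ψ, rfl⟩ := exists_shiftedHom g
    rw [← ShiftedHom.map_comp, scQ_map, scQ_map, scQ_map, sc₀_comp]
  one x m h := by
    have := scQ_map x x m (ShiftedHom.mk₀ m h (𝟙 (unroll 𝕜 G x)))
    rw [ShiftedHom.map_mk₀, (QQ 𝕜 G).map_id] at this
    rw [this, sc₀_one]

end quotient

end Pool.Agent.V1166.Sph
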