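import Pool.Agent.V1166.Sph.Alg
import Pool.Agent.V1166.Sph.Model
import Pool.Agent.V1166.Sph.Defs

/-!
The obstruction: naturality of the morphism from the identity to the dual cotwist fails on
the degree zero morphism from the second to the first object.
-/

open CategoryTheory

namespace Pool.Agent.V1166.Sph

universe u v w

variable {𝕜 : Type u} [Field 𝕜] {n : ℕ} {hn : 3 ≤ n} {k : ℤ} {hk : k ≠ 0}
  {A : Type w} [Category.{v} A] [Preadditive A] [Linear 𝕜 A] [HasShift A ℤ] {P : Bool → A}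

lemma alg_S_ft : (alg n hn k hk).S true false 0 := ⟨0, by ring, by simp [lo], by simp [hi]⟩

lemma alg_c1 : (alg n hn k hk).c true false false 0 k :=
  ⟨0, 1, by ring, by ring, by simp [lo], by simp [hi], by simp [lo],
    by simp only [hi]; omega, by simp [cond]⟩

lemma alg_c2 : ¬ (alg n hn k hk).c true true false k 0 := by
  rintro ⟨j, j', h1, -, -, -, -, -, h2⟩
  simp only [cond] at h2
  subst h2
  exact hk (by simpa using h1)

theorem obstruction (M : GrModel 𝕜 (alg n hn k hk) P) (C' : A ⥤ A) (α : 𝟭 A ⟶ C')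
    (e₁ : C'.obj (P false) ≅ (P false)⟦k⟧) (e₂ : C'.obj (P true) ≅ (P true)⟦k⟧)
    (h₁ : α.app (P false) ≠ 0) : False := by
  obtain ⟨g₀, hg₀⟩ := M.surj (alg_S_ft (hn := hn) (hk := hk)) 1
  obtain ⟨g, rfl⟩ := (ShiftedHom.homEquiv (0 : ℤ) rfl).surjective g₀
  rw [ShiftedHom.homEquiv_apply] at hg₀
  have nat : g ≫ α.app (P false) = α.app (P true) ≫ C'.map g := α.naturality g
  let a₁ : ShiftedHom (P false) (P false) k := α.app (P false) ≫ e₁.hom
  let a₂ : ShiftedHom (P true) (P true) k := α.app (P true) ≫ e₂.hom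
  obtain ⟨h', hh'⟩ := (shiftFunctor A k).map_surjective (e₂.inv ≫ C'.map g ≫ e₁.hom)
  have key : (ShiftedHom.mk₀ (0 : ℤ) rfl g).comp a₁ (add_zero k) =
      a₂.comp (ShiftedHom.mk₀ (0 : ℤ) rfl h') (zero_add k) := by
    rw [ShiftedHom.mk₀_comp, ShiftedHom.comp_mk₀, hh']
    change g ≫ α.app (P false) ≫ e₁.hom = (α.app (P true) ≫ e₂.hom) ≫ _
    rw [reassoc_of% nat]
    simp
  have h2 := congr_arg (M.sc true false k) key
  rw [M.comp, M.comp, GrData.e_of_c _ alg_c1, GrData.e_of_not_c _ alg_c2, hg₀] at h2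
  have h3 : a₁ = 0 := M.inj false false k (by simpa using h2)
  apply h₁
  have h4 : α.app (P false) = a₁ ≫ e₁.inv := by simp [a₁]
  rw [h4, h3, Limits.zero_comp]

end Pool.Agent.V1166.Sph
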