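import Pool.Agent.V1166.Sph.CY

/-!
Hom-finiteness of the triangulated category generated by the two objects.
-/

open CategoryTheory Limits Pretriangulated

namespace Pool.Agent.V1166.Sph

universe u v w

section linalg

variable {𝕜 : Type u} [Field 𝕜]

lemma finite_of_exact {V₁ V₂ V₃ : Type*} [AddCommGroup V₁] [AddCommGroup V₂] [AddCommGroup V₃]
    [Module 𝕜 V₁] [Module 𝕜 V₂] [Module 𝕜 V₃] (f : V₁ →ₗ[𝕜] V₂) (g : V₂ →ₗ[𝕜] V₃)
    (h : Function.Exact f g) (h1 : Module.Finite 𝕜 V₁) (h3 : Module.Finite 𝕜 V₃) :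
    Module.Finite 𝕜 V₂ := by
  have e1 : Module.Finite 𝕜 (LinearMap.ker g) := by
    rw [LinearMap.exact_iff.1 h]
    exact Module.Finite.range f
  have e2 : Module.Finite 𝕜 (V₂ ⧸ LinearMap.ker g) :=
    Module.Finite.equiv g.quotKerEquivRange.symm
  exact Module.Finite.of_submodule_quotient (LinearMap.ker g)

lemma finite_directSum {M : ℤ → Type*} [∀ i, AddCommGroup (M i)] [∀ i, Module 𝕜 (M i)]
    (S : Finset ℤ) (h : ∀ i, Module.Finite 𝕜 (M i)) (h' : ∀ i ∉ S, ∀ x : M i, x = 0) :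
    Module.Finite 𝕜 (DirectSum ℤ M) := by
  classical
  let Φ : (∀ i : S, M i) →ₗ[𝕜] DirectSum ℤ M :=
    ∑ i : S, (DirectSum.lof 𝕜 ℤ M i) ∘ₗ (LinearMap.proj i)
  apply Module.Finite.of_surjective Φ
  intro x
  refine ⟨fun i => x i, ?_⟩
  apply DFinsupp.ext
  intro j
  have h1 : (Φ fun i => x i) = ∑ i : S, DirectSum.lof 𝕜 ℤ M i (x i) := by
    simp [Φ]
  rw [h1]
  by_cases hj : j ∈ S
  · rw [DFinsupp.finsetSum_apply, Finset.sum_eq_single ⟨j, hj⟩]
    · exact DirectSum.lof_apply 𝕜 j (x j)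
    · intro i _ hi
      apply DirectSum.of_eq_of_ne
      intro h2
      apply hi
      apply Subtype.ext
      exact h2.symm
    · intro h2
      exact (h2 (Finset.mem_univ _)).elim
  · rw [h' j hj (x j)]
    exact h' j hj _

end linalg

variable {𝕜 : Type u} [Field 𝕜] {A : Type w} [Category.{v} A] [Preadditive A] [Linear 𝕜 A]
  [HasShift A ℤ]

/-- The graded space of morphisms is finite-dimensional. -/
def FinHom (𝕜 : Type u) [Field 𝕜] {A : Type w} [Category.{v} A] [Preadditive A] [Linear 𝕜 A]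
    [HasShift A ℤ] (X Y : A) : Prop :=
  ∃ S : Finset ℤ, ∀ i : ℤ, Module.Finite 𝕜 (X ⟶ Y⟦i⟧) ∧ (i ∉ S → ∀ f : X ⟶ Y⟦i⟧, f = 0)

lemma FinHom.of_injective {X Y X' Y' : A} (h : FinHom 𝕜 X' Y')
    (φ : ∀ i : ℤ, (X ⟶ Y⟦i⟧) →ₗ[𝕜] (X' ⟶ Y'⟦i⟧)) (hφ : ∀ i, Function.Injective (φ i)) :
    FinHom 𝕜 X Y := by
  obtain ⟨S, hS⟩ := h
  refine ⟨S, fun i => ⟨?_, fun hi f => ?_⟩⟩
  · have := (hS i).1
    exact Module.Finite.of_injective (φ i) (hφ i)
  · apply hφ i
    rw [(hS i).2 hi (φ i f), map_zero]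

lemma FinHom.of_exact {X₁ Y₁ X₂ Y₂ X₃ Y₃ : A} (h₁ : FinHom 𝕜 X₁ Y₁) (h₃ : FinHom 𝕜 X₃ Y₃)
    (φ : ∀ i : ℤ, (X₁ ⟶ Y₁⟦i⟧) →ₗ[𝕜] (X₂ ⟶ Y₂⟦i⟧))
    (ψ : ∀ i : ℤ, (X₂ ⟶ Y₂⟦i⟧) →ₗ[𝕜] (X₃ ⟶ Y₃⟦i⟧))
    (he : ∀ i, Function.Exact (φ i) (ψ i)) : FinHom 𝕜 X₂ Y₂ := by
  classical
  obtain ⟨S, hS⟩ := h₁
  obtain ⟨S', hS'⟩ := h₃
  refine ⟨S ∪ S', fun i => ⟨?_, fun hi f => ?_⟩⟩
  · exact finite_of_exact (φ i) (ψ i) (he i) (hS i).1 (hS' i).1
  · rw [Finset.mem_union, not_or] at hi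
    obtain ⟨g, rfl⟩ := (he i f).1 ((hS' i).2 hi.2 _)
    rw [(hS i).2 hi.1 g, map_zero]

lemma FinHom.isProper (h : ∀ X Y : A, FinHom 𝕜 X Y) : IsProper 𝕜 A := by
  intro X Y
  obtain ⟨S, hS⟩ := h X Y
  exact finite_directSum S (fun i => (hS i).1) (fun i hi f => (hS i).2 hi f)

variable [∀ i : ℤ, (shiftFunctor A i).Additive] [∀ i : ℤ, (shiftFunctor A i).Linear 𝕜]

lemma FinHom.shift_left {X Y : A} (h : FinHom 𝕜 X Y) (i : ℤ) : FinHom 𝕜 (X⟦i⟧) Y := by
  classical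
  obtain ⟨S, hS⟩ := h
  refine ⟨S.image (fun j => j + i), fun j => ⟨?_, fun hj f => ?_⟩⟩
  · have := (hS (j - i)).1
    exact Module.Finite.of_surjective (shHom (𝕜 := 𝕜) X Y i j) (shHom_bij X Y i j).2
  · obtain ⟨g, rfl⟩ := (shHom_bij (𝕜 := 𝕜) X Y i j).2 f
    rw [(hS (j - i)).2 (fun h => hj (Finset.mem_image.2 ⟨_, h, by ring⟩)) g, map_zero]

omit [∀ i : ℤ, (shiftFunctor A i).Additive] [∀ i : ℤ, (shiftFunctor A i).Linear 𝕜] in
lemma FinHom.shift_right {X Y : A} (h : FinHom 𝕜 X Y) (i : ℤ) : FinHom 𝕜 X (Y⟦i⟧) := by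
  classical
  obtain ⟨S, hS⟩ := h
  refine ⟨S.image (fun j => j - i), fun j => ⟨?_, fun hj f => ?_⟩⟩
  · have := (hS (i + j)).1
    exact Module.Finite.equiv
      (Linear.homCongr 𝕜 (Iso.refl X) ((shiftFunctorAdd A i j).app Y))
  · have h1 : f ≫ (shiftFunctorAdd A i j).inv.app Y = 0 :=
      (hS (i + j)).2 (fun h => hj (Finset.mem_image.2 ⟨_, h, by ring⟩)) _
    have h2 := h1 =≫ (shiftFunctorAdd A i j).hom.app Y
    simpa using h2

variable {n : ℕ} {hn : 3 ≤ n} {k : ℤ} {hk : k ≠ 0} {P : Bool → A}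

lemma finHom_generator (M : GrModel 𝕜 (alg n hn k hk) P) (x y : Bool) :
    FinHom 𝕜 (P x) (P y) := by
  classical
  refine ⟨(Finset.Icc (0 : ℤ) n).image (fun m => k * m), fun i => ⟨?_, fun hni f => ?_⟩⟩
  · exact Module.Finite.of_injective (M.sc x y i) (M.inj x y i)
  · apply M.inj
    rw [map_zero]
    apply M.supp
    rintro ⟨j, rfl, h1, h2⟩
    apply hni
    rw [Finset.mem_image]
    refine ⟨j, ?_, rfl⟩
    rw [Finset.mem_Icc]
    cases x <;> cases y <;> simp only [lo, hi] at * <;> omega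

variable [HasZeroObject A] [Pretriangulated A]

theorem isProper (M : GrModel 𝕜 (alg n hn k hk) P)
    (hgen : ∀ Q : ObjectProperty A, Q.IsTriangulated → Q.IsStableUnderRetracts →
      Q (P false) → Q (P true) → ∀ X, Q X) : IsProper 𝕜 A := by
  have step1 : ∀ (x : Bool) (Y : A), FinHom 𝕜 (P x) Y := by
    intro x
    let W₀ : ObjectProperty A := fun Y => FinHom 𝕜 (P x) Y
    have hr : W₀.IsStableUnderRetracts :=
      { of_retract := by
          intro X Y r hY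
          refine FinHom.of_injective hY (fun i => Linear.rightComp 𝕜 (P x) (r.i⟦i⟧')) ?_
          intro i
          rw [injective_iff_map_eq_zero]
          intro f hf
          change f ≫ r.i⟦i⟧' = 0 at hf
          calc f = f ≫ (r.i ≫ r.r)⟦i⟧' := by simp
            _ = 0 := by rw [Functor.map_comp, reassoc_of% hf, zero_comp] }
    refine devissage hgen W₀ ?_ ?_ ?_
    · intro X hX
      refine ⟨∅, fun i => ⟨?_, fun _ f => ?_⟩⟩
      · have : Subsingleton (P x ⟶ X⟦i⟧) :=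
          ⟨fun f g => ((shiftFunctor A i).map_isZero hX).eq_of_tgt _ _⟩
        infer_instance
      · exact ((shiftFunctor A i).map_isZero hX).eq_of_tgt _ _
    · intro T hT _ h1 h3 _
      exact FinHom.of_exact h1 h3 _ _
        (fun i => rightComp_exact₂ (𝕜 := 𝕜) (P x) _ (Triangle.shift_distinguished T hT i))
    · intro y i
      exact (finHom_generator M x y).shift_right i
  have step2 : ∀ (Y X : A), FinHom 𝕜 X Y := by
    intro Y
    let W₀ : ObjectProperty A := fun X => FinHom 𝕜 X Y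
    have hr : W₀.IsStableUnderRetracts :=
      { of_retract := by
          intro X X' r hX'
          refine FinHom.of_injective hX' (fun i => Linear.leftComp 𝕜 (Y⟦i⟧) r.r) ?_
          intro i
          rw [injective_iff_map_eq_zero]
          intro f hf
          change r.r ≫ f = 0 at hf
          calc f = r.i ≫ r.r ≫ f := by simp
            _ = 0 := by rw [hf, comp_zero] }
    refine devissage hgen W₀ ?_ ?_ ?_
    · intro X hX
      refine ⟨∅, fun i => ⟨?_, fun _ f => ?_⟩⟩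
      · have : Subsingleton (X ⟶ Y⟦i⟧) := ⟨fun f g => hX.eq_of_src _ _⟩
        infer_instance
      · exact hX.eq_of_src _ _
    · intro T hT _ h1 h3 _
      exact FinHom.of_exact h3 h1 _ _ (fun i => leftComp_exact₂ (𝕜 := 𝕜) (Y⟦i⟧) T hT)
    · intro y i
      exact (step1 y Y).shift_left i
  exact FinHom.isProper (fun X Y => step2 Y X)

end Pool.Agent.V1166.Sph
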