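import Pool.Agent.V1166.Sph.Transport
import Pool.Agent.V1166.Sph.Proper
import Mathlib.Algebra.Category.ModuleCat.Abelian
import Mathlib.Algebra.Homology.HomotopyCategory.Triangulated
import Mathlib.CategoryTheory.Abelian.FunctorCategory
import Mathlib.CategoryTheory.Linear.FunctorCategory
import Mathlib.CategoryTheory.Linear.Yoneda
import Mathlib.CategoryTheory.Triangulated.Generators

/-!
Realization of the graded category in an algebraic triangulated category.
-/

open CategoryTheory Limits Pretriangulated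

namespace Pool.Agent.V1166.Sph

universe u

lemma shift_linear_of_faithful {𝕜 : Type*} [Field 𝕜] {C D : Type*} [Category* C] [Category* D]
    [Preadditive C] [Preadditive D] [Linear 𝕜 C] [Linear 𝕜 D] [HasShift C ℤ] [HasShift D ℤ]
    (F : C ⥤ D) [F.CommShift ℤ] [F.Linear 𝕜] [F.Faithful] (i : ℤ)
    [(shiftFunctor D i).Linear 𝕜] : (shiftFunctor C i).Linear 𝕜 where
  map_smul {X Y} f r := by
    apply F.map_injective
    rw [← cancel_mono ((F.commShiftIso i).hom.app Y), F.map_smul, Linear.smul_comp]
    have h1 := (F.commShiftIso i).hom.naturality f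
    have h2 := (F.commShiftIso i).hom.naturality (r • f)
    dsimp at h1 h2
    rw [h2, h1, F.map_smul, Functor.map_smul, Linear.comp_smul]

section yoneda

variable (𝕜 : Type u) [Field 𝕜] (G : GrData Bool)

/-- The abelian category of modules over the category attached to a graded category. -/
abbrev ModOb : Type (u + 1) := (Ob 𝕜 G)ᵒᵖ ⥤ ModuleCat.{u} 𝕜

noncomputable instance : (linearYoneda 𝕜 (Ob 𝕜 G)).Additive where
  map_add {X Y f g} := by
    ext Z h
    exact Preadditive.comp_add _ _ _ (show Z.unop ⟶ X from h) f g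

noncomputable instance : (linearYoneda 𝕜 (Ob 𝕜 G)).Linear 𝕜 where
  map_smul {X Y} f r := by
    ext Z h
    exact Linear.comp_smul _ _ _ (show Z.unop ⟶ X from h) r f

/-- The homotopy category in which everything takes place. -/
abbrev HoMod : Type (u + 1) := HomotopyCategory (ModOb 𝕜 G) (ComplexShape.up ℤ)

/-- The functor from the homotopy category of the small category. -/
noncomputable abbrev yonedaK : HomotopyCategory (Ob 𝕜 G) (ComplexShape.up ℤ) ⥤ HoMod 𝕜 G :=
  (linearYoneda 𝕜 (Ob 𝕜 G)).mapHomotopyCategory (ComplexShape.up ℤ)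

/-- The two objects in the big homotopy category. -/
noncomputable def bigP (x : Bool) : HoMod 𝕜 G :=
  (yonedaK 𝕜 G).obj ((QQ 𝕜 G).obj (unroll 𝕜 G x))

/-- The model in the big homotopy category. -/
noncomputable def modelBig : GrModel 𝕜 G (bigP 𝕜 G) :=
  (modelQ 𝕜 G).push (yonedaK 𝕜 G)

/-- The two generators. -/
def gens : ObjectProperty (HoMod 𝕜 G) := fun X => X = bigP 𝕜 G false ∨ X = bigP 𝕜 G true

instance : (gens 𝕜 G).Nonempty := ObjectProperty.nonempty_of_prop (P := gens 𝕜 G) (Or.inl rfl)

/-- The thick triangulated subcategory generated by the two objects. -/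
abbrev thick : ObjectProperty (HoMod 𝕜 G) := (gens 𝕜 G).triangEnvelope

/-- The triangulated category generated by the two objects. -/
abbrev CatA : Type (u + 1) := (thick 𝕜 G).FullSubcategory

instance (i : ℤ) : (shiftFunctor (CatA 𝕜 G) i).Linear 𝕜 :=
  shift_linear_of_faithful (thick 𝕜 G).ι i

/-- The two objects. -/
noncomputable def objP (x : Bool) : CatA 𝕜 G :=
  ⟨bigP 𝕜 G x, ObjectProperty.le_triangEnvelope _ _ (by cases x <;> simp [gens])⟩

/-- The model in the triangulated category. -/
noncomputable def modelA : GrModel 𝕜 G (objP 𝕜 G) :=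
  GrModel.pull (thick 𝕜 G).ι (P := objP 𝕜 G) (modelBig 𝕜 G)

lemma isAlgebraicTri : IsAlgebraicTri.{u, u, u + 1, u, u + 1} 𝕜 (CatA 𝕜 G) :=
  ⟨ModOb 𝕜 G, inferInstance, inferInstance, inferInstance, inferInstance, inferInstance,
    (thick 𝕜 G).ι, inferInstance, inferInstance, inferInstance, inferInstance, inferInstance⟩

lemma generates (Q : ObjectProperty (CatA 𝕜 G)) (hQ : Q.IsTriangulated)
    (hQ' : Q.IsStableUnderRetracts) (h₁ : Q (objP 𝕜 G false)) (h₂ : Q (objP 𝕜 G true))
    (X : CatA 𝕜 G) : Q X := by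
  let R : ObjectProperty (HoMod 𝕜 G) := Q.map (thick 𝕜 G).ι
  have hR : R.IsTriangulated := inferInstance
  have hiso : Q.IsClosedUnderIsomorphisms := inferInstance
  have hR' : R.IsStableUnderRetracts :=
    { of_retract := by
        rintro Y Z r ⟨Z', hZ', ⟨e⟩⟩
        have hY : thick 𝕜 G Y :=
          ObjectProperty.prop_of_retract _ (r.trans (Retract.ofIso e.symm)) Z'.2
        let Y' : CatA 𝕜 G := ⟨Y, hY⟩
        have r' : Retract Y' Z' :=
          { i := (thick 𝕜 G).ι.preimage (r.i ≫ e.inv)
            r := (thick 𝕜 G).ι.preimage (e.hom ≫ r.r)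
            retract := by
              apply (thick 𝕜 G).ι.map_injective
              rw [Functor.map_comp, Functor.map_preimage, Functor.map_preimage,
                Category.assoc, Iso.inv_hom_id_assoc, r.retract]
              rfl }
        exact ⟨Y', Q.prop_of_retract r' hZ', ⟨Iso.refl _⟩⟩ }
  have h : thick 𝕜 G ≤ R := by
    rw [ObjectProperty.triangEnvelope_le_iff]
    rintro Y (rfl | rfl)
    · exact ⟨_, h₁, ⟨Iso.refl _⟩⟩
    · exact ⟨_, h₂, ⟨Iso.refl _⟩⟩
  obtain ⟨Y, hY, ⟨e⟩⟩ := h X.1 X.2
  exact Q.prop_of_iso ((thick 𝕜 G).ι.preimageIso e) hY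

end yoneda

end Pool.Agent.V1166.Sph
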