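import Pool.Agent.V1166.Sph.Model

/-!
Transport of models of a graded category along fully faithful functors.
-/

open CategoryTheory

namespace Pool.Agent.V1166.Sph

universe u v w v' w'

variable {ι : Type} {𝕜 : Type u} [Field 𝕜] {G : GrData ι}
  {A : Type w} [Category.{v} A] [Preadditive A] [Linear 𝕜 A] [HasShift A ℤ]
  {D : Type w'} [Category.{v'} D] [Preadditive D] [Linear 𝕜 D] [HasShift D ℤ]
  (F : A ⥤ D) [F.CommShift ℤ] [F.Additive] [F.Linear 𝕜]

/-- The action of a functor on shifted morphisms as a linear map. -/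
noncomputable def mapSh (X Y : A) (j : ℤ) :
    ShiftedHom X Y j →ₗ[𝕜] ShiftedHom (F.obj X) (F.obj Y) j where
  toFun φ := φ.map F
  map_add' _ _ := ShiftedHom.map_add _ _ _
  map_smul' _ _ := ShiftedHom.map_smul _ _ _

lemma mapSh_bij [F.Full] [F.Faithful] (X Y : A) (j : ℤ) :
    Function.Bijective (mapSh (𝕜 := 𝕜) F X Y j) := by
  constructor
  · rw [injective_iff_map_eq_zero]
    intro f hf
    change F.map f ≫ (F.commShiftIso j).hom.app Y = 0 at hf
    have := hf =≫ (F.commShiftIso j).inv.app Y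
    apply F.map_injective
    simpa using this
  · intro f
    obtain ⟨g, hg⟩ := F.map_surjective (f ≫ (F.commShiftIso j).inv.app Y)
    refine ⟨g, ?_⟩
    change F.map g ≫ (F.commShiftIso j).hom.app Y = f
    rw [hg]
    simp

/-- Models can be pushed forward along fully faithful functors. -/
noncomputable def GrModel.push [F.Full] [F.Faithful] {P : ι → A} (M : GrModel 𝕜 G P) :
    GrModel 𝕜 G (fun x => F.obj (P x)) where
  sc x y j := M.sc x y j ∘ₗ (LinearEquiv.ofBijective _ (mapSh_bij (𝕜 := 𝕜) F (P x) (P y) j)).symm.toLinearMap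
  inj x y j := (M.inj x y j).comp (LinearEquiv.injective _)
  surj {x y j} hS := (M.surj hS).comp (LinearEquiv.surjective _)
  supp {x y j} hS f := M.supp hS _
  comp {x y z a b c} h f g := by
    obtain ⟨φ, rfl⟩ := (mapSh_bij (𝕜 := 𝕜) F (P x) (P y) a).2 f
    obtain ⟨ψ, rfl⟩ := (mapSh_bij (𝕜 := 𝕜) F (P y) (P z) b).2 g
    have h1 : (mapSh (𝕜 := 𝕜) F (P x) (P y) a φ).comp (mapSh (𝕜 := 𝕜) F (P y) (P z) b ψ) h =
        mapSh (𝕜 := 𝕜) F (P x) (P z) c (φ.comp ψ h) := (ShiftedHom.map_comp _ _ _ _).symm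
    have key : ∀ (x y : ι) (j : ℤ) (φ : ShiftedHom (P x) (P y) j),
        (LinearEquiv.ofBijective _ (mapSh_bij (𝕜 := 𝕜) F (P x) (P y) j)).symm
          (mapSh (𝕜 := 𝕜) F (P x) (P y) j φ) = φ := by
      intro x y j φ
      rw [LinearEquiv.symm_apply_eq]
      rfl
    rw [h1]
    simp only [LinearMap.comp_apply, LinearEquiv.coe_coe, key]
    exact M.comp h φ ψ
  one x m h := by
    have h1 : ShiftedHom.mk₀ m h (𝟙 (F.obj (P x))) =
        mapSh (𝕜 := 𝕜) F (P x) (P x) m (ShiftedHom.mk₀ m h (𝟙 (P x))) := by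
      change _ = (ShiftedHom.mk₀ m h (𝟙 (P x))).map F
      rw [ShiftedHom.map_mk₀, F.map_id]
    rw [LinearMap.comp_apply, LinearEquiv.coe_coe, h1,
      show (LinearEquiv.ofBijective _ (mapSh_bij (𝕜 := 𝕜) F (P x) (P x) m)).symm
        (mapSh (𝕜 := 𝕜) F (P x) (P x) m (ShiftedHom.mk₀ m h (𝟙 (P x)))) =
        ShiftedHom.mk₀ m h (𝟙 (P x)) by rw [LinearEquiv.symm_apply_eq]; rfl]
    exact M.one x m h

/-- Models can be pulled back along fully faithful functors. -/
noncomputable def GrModel.pull [F.Full] [F.Faithful] {P : ι → A}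
    (M : GrModel 𝕜 G (fun x => F.obj (P x))) : GrModel 𝕜 G P where
  sc x y j := M.sc x y j ∘ₗ mapSh (𝕜 := 𝕜) F (P x) (P y) j
  inj x y j := (M.inj x y j).comp (mapSh_bij (𝕜 := 𝕜) F (P x) (P y) j).1
  surj {x y j} hS := (M.surj hS).comp (mapSh_bij (𝕜 := 𝕜) F (P x) (P y) j).2
  supp {x y j} hS f := M.supp hS _
  comp {x y z a b c} h f g := by
    rw [LinearMap.comp_apply, show mapSh (𝕜 := 𝕜) F (P x) (P z) c (f.comp g h) = 
      (f.map F).comp (g.map F) h from ShiftedHom.map_comp _ _ _ _]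
    exact M.comp h _ _
  one x m h := by
    rw [LinearMap.comp_apply, show mapSh (𝕜 := 𝕜) F (P x) (P x) m
      (ShiftedHom.mk₀ m h (𝟙 (P x))) = ShiftedHom.mk₀ m h (𝟙 (F.obj (P x))) by
        change (ShiftedHom.mk₀ m h (𝟙 (P x))).map F = _
        rw [ShiftedHom.map_mk₀, F.map_id]]
    exact M.one x m h

end Pool.Agent.V1166.Sph
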