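import Pool.Agent.V1166.Sph.GrCat
import Mathlib.Algebra.Homology.HomotopyCategory.Shift
import Mathlib.CategoryTheory.Shift.ShiftedHom

/-!
The unrolled complexes attached to the points of a graded category, and the computation of
the morphisms between them in the homotopy category.
-/

open CategoryTheory

namespace Pool.Agent.V1166.Sph

universe u

variable {ι : Type} {𝕜 : Type u} [Field 𝕜] {G : GrData ι}

section scalars

variable {X Y Z : Ob 𝕜 G}

lemma comp_fst (f : X ⟶ Y) (g : Y ⟶ Z) :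
    (f ≫ g).val.1 = G.e 𝕜 X.pt Y.pt Z.pt (Y.deg - X.deg) (Z.deg - Y.deg) *
      (f.val.1 * g.val.1) := rfl

lemma comp_snd (f : X ⟶ Y) (g : Y ⟶ Z) :
    (f ≫ g).val.2 = G.e 𝕜 X.pt Y.pt Z.pt (Y.deg - X.deg) (Z.deg - Y.deg - 1) *
      (f.val.1 * g.val.2) + sgn 𝕜 (Z.deg - Y.deg) *
      (G.e 𝕜 X.pt Y.pt Z.pt (Y.deg - X.deg - 1) (Z.deg - Y.deg) * (f.val.2 * g.val.1)) := rfl

lemma eqToHom_val (h : X = Y) : (eqToHom h).val = (1, 0) := by
  subst h
  rfl

end scalars

/-- The unrolled complex of a point. -/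
noncomputable def unroll (𝕜 : Type u) [Field 𝕜] (G : GrData ι) (x : ι) :
    CochainComplex (Ob 𝕜 G) ℤ where
  X i := ⟨x, i⟩
  d i j := ⟨(0, if i + 1 = j then 1 else 0), by
    refine ⟨fun _ => rfl, fun h => ?_⟩
    dsimp only at h ⊢
    rw [if_neg]
    rintro rfl
    apply h
    simpa using G.id_S x⟩
  shape i j h := by
    apply Ob.hom_ext
    simp only [Ob.zero_val]
    rw [if_neg (by simpa using h)]
    rfl
  d_comp_d' i j k hij hjk := by
    apply Ob.hom_ext
    ext
    · simp [comp_fst]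
    · simp [comp_snd]

@[simp]
lemma unroll_X (x : ι) (i : ℤ) : (unroll 𝕜 G x).X i = ⟨x, i⟩ := rfl

lemma unroll_d_val (x : ι) (i : ℤ) : ((unroll 𝕜 G x).d i (i + 1)).val = (0, 1) := by
  change ((0 : 𝕜), if i + 1 = i + 1 then (1 : 𝕜) else 0) = (0, 1)
  simp

/-- A complex which looks like the shift by `s` of the unrolled complex of `x`. -/
structure Unr (K : CochainComplex (Ob 𝕜 G) ℤ) (x : ι) (s : ℤ) : Prop where
  X : ∀ i, K.X i = ⟨x, i + s⟩
  d : ∀ i, (K.d i (i + 1)).val = (0, sgn 𝕜 s)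

lemma unr_unroll (x : ι) : Unr (unroll 𝕜 G x) x 0 where
  X i := by simp
  d i := by simp [unroll_d_val]

lemma Unr.shift {K : CochainComplex (Ob 𝕜 G) ℤ} {x : ι} {s : ℤ} (h : Unr K x s) (j : ℤ) :
    Unr (K⟦j⟧) x (s + j) where
  X i := by
    rw [CochainComplex.shiftFunctor_obj_X', h.X]
    congr 1
    ring
  d i := by
    rw [CochainComplex.shiftFunctor_obj_d', sgn_smul 𝕜, Ob.smul_val]
    rw [show i + 1 + j = i + j + 1 by ring, h.d (i + j), sgn_add, mul_comm]
    simp

section hom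

variable {K L : CochainComplex (Ob 𝕜 G) ℤ} {x y : ι} {s r : ℤ}

lemma Unr.pt (hK : Unr K x s) (i : ℤ) : (K.X i).pt = x := by rw [hK.X]

lemma Unr.deg (hK : Unr K x s) (i : ℤ) : (K.X i).deg = i + s := by rw [hK.X]

lemma Unr.val_fst (hK : Unr K x s) (hL : Unr L y r) (φ : K ⟶ L) (i : ℤ)
    (h : ¬ G.S x y (r - s)) : (φ.f i).val.1 = 0 := by
  apply Ob.val_fst
  rwa [hK.pt, hL.pt, hK.deg, hL.deg, show i + r - (i + s) = r - s by ring]

/-- The first scalar of a chain map is constant. -/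
lemma Unr.const (hK : Unr K x s) (hL : Unr L y r) (φ : K ⟶ L) (i : ℤ) :
    (φ.f (i + 1)).val.1 = (φ.f i).val.1 := by
  by_cases h : G.S x y (r - s)
  · have h1 := congr_arg (fun f => f.val.2) (φ.comm i (i + 1))
    simp only [comp_snd, hK.pt, hL.pt, hK.deg, hL.deg, hK.d, hL.d] at h1
    rw [show i + r - (i + s) = r - s by ring, show i + 1 + r - (i + r) - 1 = 0 by ring,
      show i + 1 + s - (i + s) - 1 = 0 by ring,
      show i + 1 + r - (i + 1 + s) = r - s by ring,
      G.e_of_c (G.c_id h), G.e_of_c (G.id_c h)] at h1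
    have h2 : sgn 𝕜 r = sgn 𝕜 (r - s) * sgn 𝕜 s := by rw [← sgn_add]; congr 1; ring
    have h3 := sgn_ne_zero 𝕜 r
    have h4 : sgn 𝕜 r * ((φ.f i).val.1 - (φ.f (i + 1)).val.1) = 0 := by
      linear_combination h1 - (φ.f (i + 1)).val.1 * h2
    rcases mul_eq_zero.1 h4 with h5 | h5
    · exact (h3 h5).elim
    · exact (sub_eq_zero.1 h5).symm
  · rw [hK.val_fst hL φ _ h, hK.val_fst hL φ _ h]

lemma Unr.const' (hK : Unr K x s) (hL : Unr L y r) (φ : K ⟶ L) (i j : ℤ) :
    (φ.f i).val.1 = (φ.f j).val.1 := by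
  have key : ∀ i : ℤ, (φ.f i).val.1 = (φ.f 0).val.1 := by
    intro i
    induction i using Int.induction_on with
    | zero => rfl
    | succ i hi => rw [hK.const hL, hi]
    | pred i hi =>
      have := hK.const hL φ (-(i : ℤ) - 1)
      rw [show -(i : ℤ) - 1 + 1 = -i by ring] at this
      rw [← this, hi]
  rw [key i, key j]

/-- The first scalar of a null homotopic chain map vanishes. -/
lemma Unr.fst_of_homotopy (hK : Unr K x s) (hL : Unr L y r) (φ : K ⟶ L)
    (H : Homotopy φ 0) (i : ℤ) : (φ.f i).val.1 = 0 := by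
  have h := H.comm i
  rw [dNext_eq _ (show (ComplexShape.up ℤ).Rel i (i + 1) by simp),
    prevD_eq _ (show (ComplexShape.up ℤ).Rel (i - 1) i by simp)] at h
  have h1 := congr_arg (fun f => f.val.1) h
  simp only [HomologicalComplex.zero_f, add_zero, Ob.add_val, Prod.fst_add, comp_fst, hK.d] at h1
  have h2 : (L.d (i - 1) i).val.1 = 0 := by
    have := hL.d (i - 1)
    rw [show i - 1 + 1 = i by ring] at this
    rw [this]
  rw [h2] at h1
  simpa using h1

lemma exists_telescope {M : Type*} [AddCommGroup M] (b : ℤ → M) :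
    ∃ c : ℤ → M, ∀ i, c i - c (i + 1) = b i := by
  refine ⟨fun i => ∑ t ∈ Finset.Ico i 0, b t - ∑ t ∈ Finset.Ico 0 i, b t, fun i => ?_⟩
  rcases lt_or_ge i 0 with hi | hi
  · have h1 : Finset.Ico 0 i = ∅ := Finset.Ico_eq_empty (by omega)
    have h2 : Finset.Ico 0 (i + 1) = ∅ := Finset.Ico_eq_empty (by omega)
    have h3 : Finset.Ico i 0 = insert i (Finset.Ico (i + 1) 0) := by
      ext t; simp only [Finset.mem_Ico, Finset.mem_insert]; omega
    dsimp only
    rw [h1, h2, h3, Finset.sum_insert (by simp)]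
    simp
  · have h1 : Finset.Ico i 0 = ∅ := Finset.Ico_eq_empty (by omega)
    have h2 : Finset.Ico (i + 1) 0 = ∅ := Finset.Ico_eq_empty (by omega)
    have h3 : Finset.Ico 0 (i + 1) = insert i (Finset.Ico 0 i) := by
      ext t; simp only [Finset.mem_Ico, Finset.mem_insert]; omega
    dsimp only
    rw [h1, h2, h3, Finset.sum_insert (by simp)]
    simp

/-- A chain map with vanishing first scalar is null homotopic. -/
lemma Unr.homotopy_of_fst (hK : Unr K x s) (hL : Unr L y r) (φ : K ⟶ L)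
    (h0 : (φ.f 0).val.1 = 0) : Nonempty (Homotopy φ 0) := by
  by_cases hS : G.S x y (r - s - 1)
  · obtain ⟨c, hc⟩ := exists_telescope (fun i => sgn 𝕜 r * (φ.f i).val.2)
    have hmem : ∀ i j : ℤ, ((if j + 1 = i then c i else 0, 0) : 𝕜 × 𝕜) ∈
        Ob.homSub (K.X i) (L.X j) := by
      intro i j
      refine ⟨fun h => ?_, fun _ => rfl⟩
      dsimp only
      rw [if_neg]
      rintro rfl
      apply h
      rwa [hK.pt, hL.pt, hK.deg, hL.deg, show j + r - (j + 1 + s) = r - s - 1 by ring]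
    refine ⟨{ hom := fun i j => ⟨_, hmem i j⟩, zero := ?_, comm := ?_ }⟩
    · intro i j hij
      apply Ob.hom_ext
      simp only [Ob.zero_val]
      rw [if_neg (by simpa using hij)]
      rfl
    · intro i
      rw [dNext_eq _ (show (ComplexShape.up ℤ).Rel i (i + 1) by simp),
        prevD_eq _ (show (ComplexShape.up ℤ).Rel (i - 1) i by simp)]
      have h2 : (L.d (i - 1) i).val = (0, sgn 𝕜 r) := by
        have := hL.d (i - 1)
        rwa [show i - 1 + 1 = i by ring] at this
      apply Ob.hom_ext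
      simp only [HomologicalComplex.zero_f, add_zero, Ob.add_val]
      ext
      · simp only [Prod.fst_add, comp_fst, hK.d, h2]
        rw [hK.const' hL φ i 0, h0]
        simp
      · simp only [Prod.snd_add, comp_snd, hK.d, h2, hK.pt, hL.pt, hK.deg, hL.deg]
        rw [show i - 1 + r - (i + s) = r - s - 1 by ring,
          show i + r - (i - 1 + r) - 1 = 0 by ring, show i + 1 + s - (i + s) - 1 = 0 by ring,
          show i + r - (i + 1 + s) = r - s - 1 by ring,
          G.e_of_c (G.c_id hS), G.e_of_c (G.id_c hS)]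
        have h3 : sgn 𝕜 r = - (sgn 𝕜 (r - s - 1) * sgn 𝕜 s) := by
          rw [sgn_sub_one, neg_mul, neg_neg, ← sgn_add]
          congr 1
          ring
        have h4 := hc i
        have h5 := sgn_mul_self 𝕜 r
        simp
        linear_combination -(φ.f i).val.2 * h5 - sgn 𝕜 r * h4 - c (i + 1) * h3
  · refine ⟨Homotopy.ofEq ?_⟩
    apply HomologicalComplex.Hom.ext
    funext i
    apply Ob.hom_ext
    ext
    · rw [hK.const' hL φ i 0, h0]
      rfl
    · rw [Ob.val_snd]
      · rfl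
      · rwa [hK.pt, hL.pt, hK.deg, hL.deg, show i + r - (i + s) - 1 = r - s - 1 by ring]

/-- Existence of chain maps with given first scalar. -/
lemma Unr.exists_hom (hK : Unr K x s) (hL : Unr L y r) (hS : G.S x y (r - s)) (a : 𝕜) :
    ∃ φ : K ⟶ L, ∀ i, (φ.f i).val.1 = a := by
  have hmem : ∀ i : ℤ, ((a, 0) : 𝕜 × 𝕜) ∈ Ob.homSub (K.X i) (L.X i) := by
    intro i
    refine ⟨fun h => (h ?_).elim, fun _ => rfl⟩
    rwa [hK.pt, hL.pt, hK.deg, hL.deg, show i + r - (i + s) = r - s by ring]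
  refine ⟨{ f := fun i => ⟨_, hmem i⟩, comm' := ?_ }, fun i => rfl⟩
  intro i j hij
  obtain rfl : i + 1 = j := by simpa using hij
  apply Ob.hom_ext
  ext
  · simp [comp_fst, hK.d, hL.d]
  · simp only [comp_snd, hK.pt, hL.pt, hK.deg, hL.deg, hK.d, hL.d]
    rw [show i + r - (i + s) = r - s by ring, show i + 1 + r - (i + r) - 1 = 0 by ring,
      show i + 1 + s - (i + s) - 1 = 0 by ring,
      show i + 1 + r - (i + 1 + s) = r - s by ring,
      G.e_of_c (G.c_id hS), G.e_of_c (G.id_c hS)]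
    have h2 : sgn 𝕜 r = sgn 𝕜 (r - s) * sgn 𝕜 s := by rw [← sgn_add]; congr 1; ring
    simp
    linear_combination a * h2

end hom

end Pool.Agent.V1166.Sph
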